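import Pool.Agent.Run7.h488.IS.Main

/-!
# Every infinite set of primes contains an infinite set without infinite tame representations

Let `p` be a prime, `p ^ m > 2`, and let `Q` be any infinite set of primes congruent to `1` modulo `p ^ m`. Then there is an
infinite subset `P` of `Q` with the following property. Let `S` be any set of primes `l ≠ p`, finite or infinite, whose members
congruent to `1` modulo `p ^ m` are in `P`. Let `A` be any Noetherian local ring of residue characteristic `p` with its adic
topology, and `ρ : Gal(ℚbar/ℚ) → GL_n(A)` a continuous representation of any dimension `n < p` (of any dimension at all, if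
`p = 2`), unramified outside `S` (so also at `p`), such that the inertia groups at `l ∈ S` act trivially modulo `p ^ m` and modulo
all powers of `p` which divide `l - 1`. Then `ρ` is trivial if `p ^ (m + 1) a = 0` implies `p ^ m a = 0` in `A`, for example if `p`
is not a zero divisor; and if `S` is finite, the image of `ρ` is finite for every `A`.

One subset `P` serves for all dimensions, coefficient rings, sets `S` and representations. There is no condition on `Q`. If
for every `k` all but finitely many members of `Q` are congruent to `1` modulo `p ^ k`, there is such a `P` for all dimensions `n`.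
If `p ^ (m + 1)` divides no `q - 1`, `q ∈ Q`, the condition on the inertia groups at the primes in `P` is triviality modulo `p ^ m`.
For `S` with at least four (for `p = 2` at least five) primes congruent to `1` modulo `p` the Galois group of the maximal
`p`-extension of `ℚ` unramified outside `S` is infinite (Golod and Shafarevich).

Proof. If infinitely many members of `Q` have the same level `k`, the theorem of Ramsey gives an infinite subset `P` of these in
which the linking numbers `λ x y` and `λ y x` do not depend on `x < y`. Then the linking numbers of two neighbouring elements of a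
finite subset with all other elements are equal, and the criterion `Pool.Agent.Q315.FM.noSol_chain` (starting library)
excludes families of nilpotent matrices of size `n < p` with the commutation relations of the Frobenius elements and the generators
of inertia; for `p = 2` the reciprocity law makes `λ` symmetric, and `noSol_graph` applies in all dimensions. Otherwise `P` is chosen
with at most one member of every level. A homomorphism with open kernel from `Gal(ℚbar/ℚ)` is ramified at finitely many primes
only (`Run7.h488.IS.finite_ram`), so that the exclusion of the finite families gives the criterion of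
`Pool.Agent.Results.MP_924d78_nt.SeveralLevels` for infinite sets of primes (`Run7.h488.IS.crit_rat`).
-/

set_option autoImplicit false

open NumberField Matrix IsLocalRing

namespace Pool.Agent.Results.MP_924d78_nt.InfiniteSubsets

/-- `τ` lies in the inertia group at the ideal `P` of the ring of all algebraic integers. -/
def InInertia (P : Ideal (𝓞 (AlgebraicClosure ℚ))) (τ : Gal(AlgebraicClosure ℚ/ℚ)) : Prop :=
  ∀ x : 𝓞 (AlgebraicClosure ℚ), τ • x - x ∈ P

/-- `ρ` is unramified at all primes which do not lie above a member of `S`. -/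
def UnramifiedOutside {n : ℕ} {A : Type} [CommRing A] (S : Set ℕ) (ρ : Gal(AlgebraicClosure ℚ/ℚ) →* GL (Fin n) A) : Prop :=
  ∀ P : Ideal (𝓞 (AlgebraicClosure ℚ)), P.IsMaximal → (∀ l ∈ S, (l : 𝓞 (AlgebraicClosure ℚ)) ∉ P) →
    ∀ τ, InInertia P τ → ρ τ = 1

/-- For all `l ∈ S` the inertia groups at the primes above `l` act trivially modulo `p ^ m` and modulo all powers of `p` which
divide `l - 1`. -/
def InertiaCondition {n : ℕ} {A : Type} [CommRing A] (p m : ℕ) (S : Set ℕ)
    (ρ : Gal(AlgebraicClosure ℚ/ℚ) →* GL (Fin n) A) : Prop :=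
  ∀ l ∈ S, ∀ P : Ideal (𝓞 (AlgebraicClosure ℚ)), P.IsMaximal → (l : 𝓞 (AlgebraicClosure ℚ)) ∈ P →
    ∀ τ, InInertia P τ → ∀ k : ℕ, k ≤ m ∨ p ^ k ∣ l - 1 → ∀ i j, (p : A) ^ k ∣ ((ρ τ : Matrix (Fin n) (Fin n) A) - 1) i j

/-- **The finiteness property** of a set `S` of prime numbers, in dimension `n`: let `A` be any Noetherian local ring of residue
characteristic `p` with its adic topology, and `ρ` a continuous representation of the absolute Galois group of `ℚ` in `GL_n(A)`,
unramified outside `S`, whose inertia groups at the primes in `S` satisfy the condition above. Then `ρ` is trivial if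
`p ^ (m + 1) a = 0` implies `p ^ m a = 0` in `A`, and the image of `ρ` is finite if `S` is finite. -/
def TameFinite (p m n : ℕ) (S : Set ℕ) : Prop :=
  ∀ (A : Type) [CommRing A] [IsLocalRing A] [IsNoetherianRing A] [TopologicalSpace A],
    IsAdic (maximalIdeal A) → (p : A) ∈ maximalIdeal A →
      ∀ ρ : Gal(AlgebraicClosure ℚ/ℚ) →* GL (Fin n) A, Continuous ρ → UnramifiedOutside S ρ → InertiaCondition p m S ρ →
        ((∀ a : A, (p : A) ^ (m + 1) * a = 0 → (p : A) ^ m * a = 0) → ∀ g, ρ g = 1) ∧ (S.Finite → (Set.range ρ).Finite)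

open Pool.Agent.W569.FM Pool.Agent.R417.FK Pool.Agent.W571.FM Run7.h488.IS in
theorem tameFinite_of_good (p : ℕ) [hp : Fact p.Prime] (m n : ℕ) (hm : 2 < p ^ m)
    (χ : ∀ j : ℕ, (ZMod j)ˣ →* Multiplicative (ZMod p)) (hχ : ∀ l : ℕ, l.Prime → p ∣ l - 1 → ∃ x, χ l x ≠ 1)
    (P : Set ℕ) (hP : Good p m n χ P) (S : Set ℕ) (hS : ∀ l ∈ S, l.Prime ∧ l ≠ p) (hSP : ∀ l ∈ S, p ^ m ∣ l - 1 → l ∈ P) :
    TameFinite p m n S := by
  classical
  have hm1 : 1 ≤ m := by
    rcases Nat.eq_zero_or_pos m with h | h
    · rw [h, pow_zero] at hm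
      omega
    · exact h
  intro A _ _ _ _ hA hpA ρ hρ hur hI
  have hcrit : ∀ k, m ≤ k → Crit (K := ℚ) p n k (above S) := by
    intro k hk
    refine crit_rat (hm1.trans hk) S (fun l hl => (hS l hl).1) χ hχ fun J hJ hne => hP k hk J (fun l hl => ?_) hne
    obtain ⟨h1, h2, h3, h4, h5⟩ := hJ l hl
    exact ⟨hSP l h1 ((pow_dvd_pow p hk).trans h4), h4, h5⟩
  have h1 := Pool.Agent.Results.MP_924d78_nt.SeveralLevels.result p m hm n ℚ (above S) (fun k hk => Or.inr (hcrit k hk))
    A hA hpA ρ hρ (Or.inl (Or.inl (Module.finrank_self ℚ))) ?_ ?_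
  · refine ⟨h1.1, fun hSf => h1.2 ?_⟩
    refine ((hSf.image fun l : ℕ => Ideal.span {((l : ℕ) : 𝓞 ℚ)}).union (Set.finite_singleton ⊤)).subset ?_
    rintro v ⟨l, hl, hlv⟩
    have hlp := (hS l hl).1
    have hle : Ideal.span {((l : ℕ) : 𝓞 ℚ)} ≤ v := by
      rw [Ideal.span_singleton_le_iff_mem]
      exact hlv
    have hn : Ideal.absNorm (Ideal.span {((l : ℕ) : 𝓞 ℚ)}) = l := by
      rw [Ideal.absNorm_span_natCast, RingOfIntegers.rank, Module.finrank_self, pow_one]
    have hprime : (Ideal.span {((l : ℕ) : 𝓞 ℚ)}).IsPrime := by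
      apply Ideal.isPrime_of_irreducible_absNorm
      rw [hn]
      exact hlp
    have hne : Ideal.span {((l : ℕ) : 𝓞 ℚ)} ≠ ⊥ := by
      intro h
      rw [h, Ideal.absNorm_bot] at hn
      exact hlp.ne_zero hn.symm
    have hmax : (Ideal.span {((l : ℕ) : 𝓞 ℚ)}).IsMaximal := hprime.isMaximal hne
    by_cases htop : v = ⊤
    · exact Or.inr htop
    · exact Or.inl ⟨l, hl, hmax.eq_of_le htop hle⟩
  · intro P hP h τ hτ
    refine hur P hP (fun l hl hlP => ?_) τ hτ
    rcases h with h | h
    · have e1 := nm_eq hP (hS l hl).1 hlP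
      have e2 := nm_eq hP hp.out h
      exact (hS l hl).2 (e1.symm.trans e2)
    · exact h ⟨l, hl, mem_cm.2 hlP⟩
  · intro P hP hpP τ hτ k hk i j
    by_cases hex : ∃ l ∈ S, (l : 𝓞 (AlgebraicClosure ℚ)) ∈ P
    · obtain ⟨l, hl, hlP⟩ := hex
      have e1 : Ideal.absNorm (Pool.Agent.Results.MP_924d78_nt.SeveralLevels.below P) = l := nm_eq hP (hS l hl).1 hlP
      rw [e1] at hk
      exact hI l hl P hP hlP τ hτ k hk i j
    · have h2 : ρ τ = 1 := hur P hP (fun l hl hlP => hex ⟨l, hl, hlP⟩) τ hτ
      have h3 : ((ρ τ : Matrix (Fin n) (Fin n) A) - 1) i j = 0 := by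
        rw [h2, Units.val_one, sub_self, Matrix.zero_apply]
      exact Dvd.intro 0 ((mul_zero _).trans h3.symm)

/-- **Theorem.** Let `p` be a prime, `p ^ m > 2`, and `Q` an infinite set of primes congruent to `1` modulo `p ^ m`. There is an
infinite subset `P` of `Q` such that for all `n < p` (for all `n`, if `p = 2`, or if for every `k` all but finitely many members
of `Q` are congruent to `1` modulo `p ^ k`) all sets `S` of primes `l ≠ p` whose members congruent to `1` modulo `p ^ m` are in `P`
have the finiteness property in dimension `n`. -/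
theorem result (p : ℕ) [Fact p.Prime] (m : ℕ) (hm : 2 < p ^ m) (Q : Set ℕ) (hQ : Q.Infinite)
    (hQp : ∀ q ∈ Q, q.Prime ∧ p ^ m ∣ q - 1) :
    ∃ P ⊆ Q, P.Infinite ∧ ∀ n, (n < p ∨ p = 2 ∨ ∀ k, {q | q ∈ Q ∧ ¬ p ^ k ∣ q - 1}.Finite) →
      ∀ S : Set ℕ, (∀ l ∈ S, l.Prime ∧ l ≠ p) → (∀ l ∈ S, p ^ m ∣ l - 1 → l ∈ P) → TameFinite p m n S := by
  obtain ⟨χ, hχ⟩ := Pool.Agent.Q315.FM.exists_chars p
  obtain ⟨P, h1, h2, h3⟩ := Run7.h488.IS.exists_good m hm χ hχ Q hQ hQp
  exact ⟨P, h1, h2, fun n hn S hS hSP => tameFinite_of_good p m n hm χ hχ P (h3 n hn) S hS hSP⟩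

end Pool.Agent.Results.MP_924d78_nt.InfiniteSubsets
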