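import Pool.Agent.Run7.h753.TM.Off
import Pool.Agent.Run7.h753.MI.Dom
import Pool.Agent.Run7.h753.MI.Cnt
import Pool.Agent.Run7.h753.MI.DM.Cert

/-!
# Tame representations of any dimension, ramified at four primes, with mixed inertia

Theorem. Let `δ > 0`. For all primes `p ≥ p₀(δ)` the following holds. For all primes `q₁ ≡ 1 mod p` but a
proportion of at most `δ`, …, for all primes `q₄ ≡ 1 mod p` but a proportion of at most `δ`: let `A` be a
Noetherian local ring of residue characteristic `p` (with its adic topology), `n` a natural number and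
`ρ : Gal(ℚbar/ℚ) → GL_n(A)` a continuous residually unipotent representation, unramified outside
`q₁, q₂, q₃, q₄` and primes `≢ 0, 1 mod p` (so unramified at `p`). Let `a, b, c, d` be the four
primes in some order and assume that
* `ρ τ - 1` is nilpotent for `τ` in the inertia groups at `a`,
* `(ρ τ - 1) ^ 3 = 0` for `τ` in the inertia groups at `c` and at `d`,
* `(ρ τ - 1) ^ 2 = 0` for `τ` in the inertia groups at `b`
at the points of the spectrum of `A`. Then the image of `ρ` is finite. If `p` is not a zero divisor in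
`A`, then `ρ` is trivial.

At the points of characteristic `p` the matrices `ρ τ - 1` are automatically nilpotent, so there the
condition at `a` is empty, and the conditions at `c` and `d` are empty if `n ≤ 3`. For instance let `n = 3`
and let `A` be any Noetherian local ring in which `p` is nilpotent: the image of `ρ` is finite if at the
points of the spectrum `(ρ τ - 1) ^ 2 = 0` holds for the inertia at just one of the four primes.

The bound `p₀(δ)` depends neither on `n` nor on `A`: there is a nonzero integral polynomial `P` in the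
linking numbers `λ i j`, `i ≠ j`, and the levels `u i = (q i - 1) / p`, which depends neither on `p` nor on `n` nor on
`A`, such that `P(λ, u) ≠ 0` in `ℤ/p` implies this statement for `q₁, …, q₄`.

Proof. Let `A` be a domain, let `x i = ρ(τ i) - 1` for generators of the tame inertia, and let `E` be the
`A`-module generated by all `ρ(g) - 1`. By the relations for a Frobenius element `1 + y i` at `q i`,
`(1 + y i) (1 + x i) = (1 + x i) ^ q i (1 + y i)`, and class field theory for `y i` (as in Koch's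
presentation), the `x i` satisfy `∑ j, λ i j (x j x i - x i x j) = 0` modulo `E ^ 3 + p E` for all `i`, also
`x i ^ e i = 0` for `i ≠ 0`, where `e = (∞, 3, 3, 2)`, and `x 0` is nilpotent. The algebra `H` over `ℤ/p` with
generators `x 0, …, x 3` and these relations (without the last one) can be finite dimensional although `x 0` is
free: the inequality of Golod and Shafarevich does not exclude it. Then the words of length `N` vanish
in `H`, and `E ^ N ⊆ p E ^ (N - 1)`. So `E` is nilpotent and the image is finite if `A` has characteristic `p`.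
Otherwise the `x i / p` generate a lattice in which the relations are
`∑ j, λ i j (x j x i - x i x j) = u i x i` and `x i ^ e i = 0` modulo `p`, and `E = 0` follows if all words of
length `1, …, N₁` vanish in the algebra with these relations. Here the last relation for `x 0` uses that `p`
times its logarithm is again a polynomial in `x 0 / p`. By Nakayama's lemma both conditions are open
over `ℤ`, so that one point over a prime field gives the polynomial `P`. There is a point over `ℤ/5` with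
`N = 11`, `N₁ = 13`, for which `H` has dimension `126`. The multiplication table of the basis words
was found by a computer and is checked here by the kernel (`Run7.h753.MI.DM`). Minimal prime ideals of `A` are put
together as in `MP_f68ac8_nt.ManyTransvections`.
-/

set_option autoImplicit false

open NumberField IsLocalRing

namespace Pool.Agent.Results.MP_924d78_nt.MixedInertia

open Finset Filter
open Pool.Agent.Q202.RT Pool.Agent.Q202.QT
open Pool.Agent.W569.TG (lk)
open Run7.h753.MI (Q Bad bad_scInv bad_card ex ex_pos)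

/-- the absolute Galois group of `ℚ`, with the Krull topology -/
abbrev AbsGal : Type := Gal(AlgebraicClosure ℚ/ℚ)

/-- `τ` lies in the inertia group at the ideal `P` of the ring of all algebraic integers. -/
def InInertia (P : Ideal (𝓞 (AlgebraicClosure ℚ))) (τ : AbsGal) : Prop :=
  ∀ x : 𝓞 (AlgebraicClosure ℚ), τ • x - x ∈ P

/-- `Uni p e M`: all entries of `p M ^ e` are nilpotent, and if `e < n`, then so are all entries of
`M ^ e`. That is, `M ^ e = 0` at all points of the spectrum of `A`, but for `e ≥ n` only those points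
are considered at which `p ≠ 0`. -/
def Uni {A : Type} [CommRing A] {n : ℕ} (p e : ℕ) (M : Matrix (Fin n) (Fin n) A) : Prop :=
  (∀ i j, IsNilpotent ((p : A) * (M ^ e) i j)) ∧ (e < n → ∀ i j, IsNilpotent ((M ^ e) i j))

/-- `MixedFinite p S a b`: let `A` be a Noetherian local ring with `p` in its maximal ideal and with its
adic topology, `n` a natural number and `ρ` a continuous representation of the absolute Galois group of
`ℚ` in `GL_n(A)` such that all `ρ(g) - 1` are nilpotent modulo the maximal ideal. Assume that `ρ` is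
trivial on the inertia groups at all maximal ideals which contain no `l ∈ S`. Assume also for the `l ∈ S` with
`p ∣ l - 1`, the maximal ideals which contain `l` and the `τ` in their inertia groups:
* `Uni p n (ρ τ - 1)` if `l = a`, that is, `ρ τ - 1` is nilpotent at the points with `p ≠ 0`,
* `Uni p 2 (ρ τ - 1)` if `l = b`, and
* `Uni p 3 (ρ τ - 1)` for all other `l`.
Then the image of `ρ` is finite, and there is `M` with `p ^ M (ρ(g) - 1) = 0` for all `g` (so `ρ` is trivial
if `p` is not a zero divisor). -/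
def MixedFinite (p : ℕ) (S : Finset ℕ) (a b : ℕ) : Prop :=
  ∀ (A : Type) [CommRing A] [IsLocalRing A] [IsNoetherianRing A] [TopologicalSpace A],
    IsAdic (maximalIdeal A) → (p : A) ∈ maximalIdeal A →
    ∀ (n : ℕ) (ρ : AbsGal →* GL (Fin n) A), Continuous ρ →
      (∀ g, ∃ M : ℕ, ∀ i j, (((ρ g : Matrix (Fin n) (Fin n) A) - 1) ^ M) i j ∈ maximalIdeal A) →
      (∀ P : Ideal (𝓞 (AlgebraicClosure ℚ)), P.IsMaximal →
        (∀ l ∈ S, (l : 𝓞 (AlgebraicClosure ℚ)) ∉ P) → ∀ τ, InInertia P τ → ρ τ = 1) →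
      (∀ l ∈ S, p ∣ l - 1 → ∀ P : Ideal (𝓞 (AlgebraicClosure ℚ)), P.IsMaximal →
        (l : 𝓞 (AlgebraicClosure ℚ)) ∈ P → ∀ τ, InInertia P τ →
          Uni p (if l = a then n else if l = b then 2 else 3)
            ((ρ τ : Matrix (Fin n) (Fin n) A) - 1)) →
      (Set.range ρ).Finite ∧
        ∃ M : ℕ, ∀ g i j, (p : A) ^ M * ((ρ g : Matrix (Fin n) (Fin n) A) - 1) i j = 0

/-- `TameFinite p T`: `MixedFinite p S a b` holds for all distinct `a` and `b` in `T` and for all finite
sets `S` of prime numbers `l ≠ p` whose members congruent to `1` modulo `p` are in `T`. -/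
def TameFinite (p : ℕ) (T : Set ℕ) : Prop :=
  ∀ S : Finset ℕ, (∀ l ∈ S, l.Prime ∧ l ≠ p) → (∀ l ∈ S, p ∣ l - 1 → l ∈ T) →
    ∀ a ∈ T, ∀ b ∈ T, a ≠ b → MixedFinite p S a b

/-- The linking number `λ l j` of the distinct primes `l` and `j`: the value of the homomorphism
`χ j : (ℤ/j)ˣ → ℤ/p` at the class of `l` (and `0` if `j` divides `l`, in particular if `l = j`). -/
noncomputable def linking {p : ℕ} (χ : ∀ j : ℕ, (ZMod j)ˣ →* Multiplicative (ZMod p))
    (l j : ℕ) : ZMod p :=
  open Classical in if h : Nat.Coprime l j then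
    Multiplicative.toAdd (χ j (ZMod.unitOfCoprime l h)) else 0

/-- The linking numbers `λ i j` of the primes `q i` and the classes `u i` of `(q i - 1) / p`
modulo `p`. -/
noncomputable def numbers {p r : ℕ} (χ : ∀ j : ℕ, (ZMod j)ˣ →* Multiplicative (ZMod p))
    (q : Fin r → ℕ) : (Fin r × Fin r) ⊕ Fin r → ZMod p :=
  Sum.elim (fun x => linking χ (q x.1) (q x.2)) fun i => (((q i - 1) / p : ℕ) : ZMod p)

/-- `Criterion P`: let `p > 2` be a prime, `S` a finite set of prime numbers `l ≠ p`, and let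
`q 0, ..., q 3` be distinct and such that all `l ∈ S` with `p ∣ l - 1` are among them. If the value of `P`
at the linking numbers and the `(q i - 1) / p` is not zero in `ℤ/p`, for nontrivial homomorphisms `χ l`,
then `MixedFinite p S (q i) (q j)` holds for all `i ≠ j`. -/
def Criterion (P : MvPolynomial ((Fin 4 × Fin 4) ⊕ Fin 4) ℤ) : Prop :=
  ∀ (p : ℕ) [Fact p.Prime], p ≠ 2 → ∀ S : Finset ℕ,
    (∀ l ∈ S, l.Prime ∧ l ≠ p) → ∀ q : Fin 4 → ℕ, Function.Injective q →
    (∀ l ∈ S, p ∣ l - 1 → ∃ i, l = q i) →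
    ∀ χ : ∀ j : ℕ, (ZMod j)ˣ →* Multiplicative (ZMod p), (∀ l ∈ S, p ∣ l - 1 → ∃ x, χ l x ≠ 1) →
    MvPolynomial.aeval (numbers χ q) P ≠ 0 → ∀ i j, i ≠ j → MixedFinite p S (q i) (q j)

open Classical in
/-- The primes `q ≤ x` with `p ∣ q - 1`. -/
noncomputable def Pr (p x : ℕ) : Finset ℕ := (range (x + 1)).filter fun q => q.Prime ∧ p ∣ q - 1

open Classical in
/-- `Most p δ R m T`: for all primes `q₁ ≡ 1 mod p`, `q₁ ∉ T`, but a proportion of at most `δ`, for all
primes `q₂ ≡ 1 mod p`, `q₂ ∉ T ∪ {q₁}`, but a proportion of at most `δ`, …, for all primes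
`q_m ≡ 1 mod p`, `q_m ∉ T ∪ {q₁, …, q_{m-1}}`, but a proportion of at most `δ`, the set
`T ∪ {q₁, …, q_m}` has the property `R`. -/
def Most (p : ℕ) (δ : ℝ) (R : Set ℕ → Prop) : ℕ → Set ℕ → Prop
  | 0, T => R T
  | m + 1, T => ∀ ε : ℝ, 0 < ε → ∀ᶠ x : ℕ in atTop, (1 - δ - ε) * ((Pr p x).card : ℝ) ≤
      (((Pr p x).filter fun q => q ∉ T ∧ Most p δ R m (insert q T)).card : ℝ)

theorem Pr_eq (p x : ℕ) [Fact p.Prime] : Pr p x = P1 p x := by
  ext l
  rw [mem_P1, Pr, mem_filter, mem_range]
  constructor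
  · rintro ⟨h1, h2, h3⟩
    exact ⟨by omega, h2, h3⟩
  · rintro ⟨h1, h2, h3⟩
    exact ⟨by omega, h2, h3⟩

section
variable {p : ℕ} [Fact p.Prime]

theorem mixed_of (hp2 : p ≠ 2) (S : Finset ℕ) (hS : ∀ l ∈ S, l.Prime ∧ l ≠ p)
    (χ : ∀ j : ℕ, (ZMod j)ˣ →* Multiplicative (ZMod p)) (hχ : ∀ l ∈ S, p ∣ l - 1 → ∃ x, χ l x ≠ 1)
    (l : Fin 4 → ℕ) (hli : Function.Injective l)
    (hl : ∀ q ∈ S, p ∣ q - 1 → q ∈ Set.range l)
    (h01 : ∀ σ : Fin 4 → Fin 4, Function.Injective σ →
      Q ex (({11} : Finset ℕ) : Set ℕ) (fun i j => lk χ (l (σ i)) (l (σ j))) 0 ∧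
      Q ex ((range 14 : Finset ℕ) : Set ℕ) (fun i j => lk χ (l (σ i)) (l (σ j)))
        (fun i => (((l (σ i) - 1) / p : ℕ) : ZMod p)))
    (hU : ∀ i, (((l i - 1) / p : ℕ) : ZMod p) ≠ 0) (a b : Fin 4) (hab : a ≠ b) :
    MixedFinite p S (l a) (l b) := by
  classical
  intro A _ _ _ _ hA hpA n ρ hρ hres hur hI
  obtain ⟨d⟩ := Pool.Agent.TH831.NA.exists_dt S hS χ hχ
  -- an arrangement of the four primes
  obtain ⟨σ, hσ, hσ0, hσ3⟩ : ∃ σ : Fin 4 → Fin 4, Function.Injective σ ∧ σ 0 = a ∧ σ 3 = b := by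
    have hk : Equiv.swap 0 a b ≠ 0 := by
      intro h
      apply hab
      have h1 := congrArg (Equiv.swap 0 a) h
      rw [Equiv.swap_apply_self, Equiv.swap_apply_left] at h1
      exact h1.symm
    refine ⟨fun i => Equiv.swap 0 a (Equiv.swap 3 (Equiv.swap 0 a b) i),
      (Equiv.injective _).comp (Equiv.injective _), ?_, ?_⟩
    · show Equiv.swap 0 a (Equiv.swap 3 (Equiv.swap 0 a b) 0) = a
      rw [Equiv.swap_apply_of_ne_of_ne (by decide) (Ne.symm hk), Equiv.swap_apply_left]
    · show Equiv.swap 0 a (Equiv.swap 3 (Equiv.swap 0 a b) 3) = b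
      rw [Equiv.swap_apply_left, Equiv.swap_apply_self]
  have hT : ∀ q ∈ S.filter (fun l => p ∣ l - 1), q ∈ Set.range fun i => l (σ i) := fun q hq => by
    obtain ⟨i, hi⟩ := hl q (mem_filter.1 hq).1 (mem_filter.1 hq).2
    obtain ⟨j, rfl⟩ := (Finite.injective_iff_surjective.1 hσ) i
    exact ⟨j, hi⟩
  obtain ⟨h0, h1⟩ := h01 σ hσ
  rw [coe_singleton] at h0
  have e1 : ((range 14 : Finset ℕ) : Set ℕ) = {m : ℕ | m ≤ 13} := by
    ext m
    rw [coe_range, Set.mem_Iio]
    show m < 14 ↔ m ≤ 13
    omega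
  rw [e1] at h1
  have hU' : ∀ i, i ∈ S.filter (fun l => p ∣ l - 1) →
      Uni p (if i = l a then n else if i = l b then 2 else 3)
        ((ρ (d.τ i) : Matrix (Fin n) (Fin n) A) - 1) := by
    intro i hi
    obtain ⟨hiS, hpi⟩ := mem_filter.1 hi
    exact hI i hiS hpi (d.P i) (d.hP i (hS i hiS).1).1 (d.hP i (hS i hiS).1).2 (d.τ i)
      (d.hτ i hiS hpi)
  refine Run7.h753.MI.noeth_fin hp2 hpA hS d (fun i => l (σ i)) (hli.comp hσ) hT ex_pos
    (by norm_num) (by norm_num) h0 h1 (hU _)
    (Pool.Agent.TH831.NA.cts_memN hA hρ) (fun g => hres g)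
    (fun g ⟨P, hP, h2, h3⟩ => hur P hP h2 g h3) (fun i hi0 hi => ?_) (fun h => ?_)
  · have h2 := hU' _ hi
    have hia : ¬ l (σ i) = l a := fun h => hi0 (hσ (by rw [hσ0]; exact hli h))
    rw [if_neg hia] at h2
    have hex : ex i = if l (σ i) = l b then 2 else 3 := by
      split_ifs with h
      · have h3 : i = 3 := hσ (by rw [hσ3]; exact hli h)
        rw [h3]
        rfl
      · have h3 : i ≠ 3 := by
          rintro rfl
          exact h (by rw [hσ3])
        revert hi0 h3
        clear * -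
        revert i
        decide
    rw [← hex] at h2
    exact h2
  · have h2 := hU' _ h
    rw [hσ0, if_pos rfl] at h2
    rw [← hσ0] at h2
    exact h2.1

theorem good_of (hp2 : p ≠ 2) (χ : ∀ j : ℕ, (ZMod j)ˣ →* Multiplicative (ZMod p))
    (hχ : Kr χ) (l : Fin 4 → ℕ) (hli : Function.Injective l)
    (hG : ¬ Bad ex {11} (range 14) 4 (N829.QD.dat χ l)) : TameFinite p (Set.range l) := by
  unfold Bad at hG
  push Not at hG
  obtain ⟨g2, g3⟩ := hG
  rintro S hS hT _ ⟨a, rfl⟩ _ ⟨b, rfl⟩ hab
  exact mixed_of hp2 S hS χ (fun q hq hpq => (hχ q (hS q hq).1 hpq).1) l hli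
    (fun q hq h => hT q hq h) (fun σ hσ => g3 σ hσ) g2 a b (fun h => hab (by rw [h]))

theorem most_of (hp2 : 2 < p) (χ : ∀ j : ℕ, (ZMod j)ˣ →* Multiplicative (ZMod p))
    (hχ : Kr χ) {η δ : ℝ} (hη : 0 < η) (hδ : η + 1 / p ≤ δ) (m : ℕ) : ∀ (k : ℕ) (l : Fin k → ℕ),
      k + m = 4 → (∀ i, (l i).Prime) → (∀ i, p ∣ l i - 1) → Function.Injective l →
      N829.QD.GdN (Bad ex {11} (range 14)) η m k (N829.QD.dat χ l) →
      Most p δ (TameFinite p) m (Set.range l) := by
  classical
  have hp : p.Prime := Fact.out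
  have hp0 : (0 : ℝ) < p := by exact_mod_cast hp.pos
  have hp1 : (1 : ℝ) ≤ p := by exact_mod_cast hp.one_lt.le
  induction m with
  | zero =>
    intro k l hk hl hpl hli hG
    obtain rfl : k = 4 := by omega
    exact good_of (by omega) χ hχ l hli (N829.QD.gd_zero hG)
  | succ m ih =>
    intro k l hk hl hpl hli hG ε hε
    have hst := N829.QD.gd_step hη hG
    obtain ⟨Good, hGood⟩ : ∃ G : (Fin (k + 1) → ZMod p) → (Fin (k + 1) → ZMod p) → Prop,
        G = fun w s => w ≠ 0 ∧
          N829.QD.GdN (Bad ex {11} (range 14)) η m (k + 1) (ext (N829.QD.dat χ l) w s) := ⟨_, rfl⟩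
    have hst' : (1 - η) * ((p : ℝ) ^ (k + 1) * (p : ℝ) ^ (k + 1)) - (p : ℝ) ^ (k + 1) ≤
        ((∑ w : Fin (k + 1) → ZMod p,
          ((univ : Finset (Fin (k + 1) → ZMod p)).filter fun s => Good w s).card : ℕ) : ℝ) := by
      subst hGood
      convert hst
    have hd := densN (p := p) (by omega) χ hχ l hl hpl hli Good
      (fun w s h => by rw [hGood] at h; exact h.1) (fun w s c hc h => by
        rw [hGood] at h ⊢
        refine ⟨fun h0 => h.1 (by
          funext j
          exact (mul_eq_zero.1 (congrFun h0 j)).resolve_left hc), ?_⟩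
        unfold N829.QD.GdN
        rw [N829.QD.Nb_wsc (bad_scInv ex {11} (range 14)) m k hc]
        exact h.2) (1 - δ) (by
        have : (0 : ℝ) < 1 / p := by positivity
        linarith) (by
        rw [le_div_iff₀ (by
          have : 0 < Fintype.card (Fin (k + 1) → ZMod p) := Fintype.card_pos
          positivity), Fintype.card_fun, ZMod.card, Fintype.card_fin]
        refine le_trans ?_ (hst'.trans (le_of_eq (by congr!)))
        push_cast
        have h1 : (0 : ℝ) < (p : ℝ) ^ (k + 1) := by positivity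
        have h2 : (p : ℝ) ^ (k + 1) * 1 ≤ (p : ℝ) ^ (k + 1) * ((1 / p) * (p : ℝ) ^ (k + 1)) := by
          refine mul_le_mul_of_nonneg_left ?_ h1.le
          rw [pow_succ, one_div, mul_comm ((p : ℝ) ^ k), inv_mul_cancel_left₀ hp0.ne']
          exact one_le_pow₀ hp1
        have h3 : (1 - δ) * ((p : ℝ) ^ (k + 1) * (p : ℝ) ^ (k + 1)) ≤
            (1 - η - 1 / p) * ((p : ℝ) ^ (k + 1) * (p : ℝ) ^ (k + 1)) :=
          mul_le_mul_of_nonneg_right (by linarith) (by positivity)
        linarith) ε hε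
    filter_upwards [hd] with x hx
    rw [Pr_eq]
    refine le_trans hx (Nat.cast_le.2 (card_le_card ?_))
    intro q hq
    obtain ⟨h1, h2, h34⟩ := (@Finset.mem_filter _ _ _ _ _).1 hq
    rw [hGood] at h34
    obtain ⟨h3, h4⟩ := h34
    obtain ⟨-, hqp, hpq⟩ := mem_P1.1 h1
    simp only [Finset.mem_filter]
    refine ⟨h1, fun ⟨i, hi⟩ => h2 i hi.symm, ?_⟩
    rw [← Fin.range_cons]
    refine ih (k + 1) (Fin.cons q l) (by omega) ?_ ?_ ?_ ?_
    · intro i
      refine Fin.cases ?_ (fun j => ?_) i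
      · exact hqp
      · exact hl j
    · intro i
      refine Fin.cases ?_ (fun j => ?_) i
      · exact hpq
      · exact hpl j
    · rw [Fin.cons_injective_iff]
      exact ⟨fun ⟨i, hi⟩ => h2 i hi.symm, hli⟩
    · rw [N829.QD.dat_cons χ l hqp]
      exact h4

end

/-- **All dimensions, four tame primes: inertia nilpotent at one of them, cubic at two, quadratic at
the fourth.** There is a nonzero integral polynomial `P` in the linking numbers `λ i j` with `i ≠ j` and
the levels with `Criterion P`; and for every `δ > 0` and all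
large `p` the property `TameFinite p` holds for all quadruples of primes but a proportion of `δ`. -/
theorem result :
    (∃ P : MvPolynomial ((Fin 4 × Fin 4) ⊕ Fin 4) ℤ, P ≠ 0 ∧ (∀ i, Sum.inl (i, i) ∉ P.vars) ∧
      Criterion P) ∧
    ∀ δ : ℝ, 0 < δ → ∃ p₀ : ℕ, ∀ (p : ℕ) [Fact p.Prime], p₀ ≤ p →
      Most p δ (TameFinite p) 4 ∅ := by
  classical
  obtain ⟨⟨P0, hP00, hP01⟩, P1, hP10, hP11⟩ := Run7.h753.MI.polys
  obtain ⟨P, d, c, hP0, hP, hc, hdc⟩ := bad_card ex {11} (range 14) hP00 hP10 hP01 hP11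
  obtain ⟨P', c', hP'0, hP'v, hP'e⟩ := Run7.h753.TM.off_diag hP0
  refine ⟨⟨P', hP'0, hP'v, ?_⟩, ?_⟩
  · intro p _ hp2 S hS q hq hSq χ hχ hne i j hij
    rw [hP'e] at hne
    have e : Run7.h753.TM.dpt c' (numbers χ q) = Run7.h753.TM.pnt
        (fun i j => if i = j then (c' i : ZMod p) else lk χ (q i) (q j))
        (fun i => (((q i - 1) / p : ℕ) : ZMod p)) := by
      funext i
      rcases i with ⟨i, j⟩ | i <;> rfl
    rw [e] at hne
    obtain ⟨h01, hU⟩ := hP p _ _ hne
    have hd : ∀ σ : Fin 4 → Fin 4, Function.Injective σ → ∀ i j : Fin 4, i ≠ j →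
        (if σ i = σ j then (c' (σ i) : ZMod p) else lk χ (q (σ i)) (q (σ j))) =
          lk χ (q (σ i)) (q (σ j)) :=
      fun σ hσ i j h => if_neg fun h' => h (hσ h')
    exact mixed_of hp2 S hS χ hχ q hq (fun l hl h => by
      obtain ⟨i, hi⟩ := hSq l hl h
      exact ⟨i, hi.symm⟩) (fun σ hσ => ⟨(h01 σ hσ).1.diag (hd σ hσ), (h01 σ hσ).2.diag (hd σ hσ)⟩)
      hU i j hij
  · intro δ hδ
    obtain ⟨B, hB⟩ := exists_nat_gt ((d : ℝ) / (δ / 2) ^ 4 + 2 / δ)
    refine ⟨3 + c + 1 + B, ?_⟩
    intro p _ hp0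
    have hp : p.Prime := Fact.out
    have hpp : (0 : ℝ) < p := by exact_mod_cast hp.pos
    have hBp : (B : ℝ) ≤ p := by
      have : B ≤ p := by omega
      exact_mod_cast this
    have hpc : ¬ p ∣ c := fun h => by
      have := Nat.le_of_dvd (Nat.pos_of_ne_zero hc) h
      omega
    have hcard := hdc p hpc
    obtain ⟨χ, hχ, -⟩ := extend (p := p) (fun _ => 1) ∅
      (fun j hj => absurd hj (Set.notMem_empty j))
    have hd2 : (0 : ℝ) < (δ / 2) ^ 4 := by positivity
    have h1 : (d : ℝ) < (δ / 2) ^ 4 * p := by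
      have h2 : (d : ℝ) / (δ / 2) ^ 4 < p := by
        have : (0 : ℝ) < 2 / δ := by positivity
        linarith
      rwa [div_lt_iff₀ hd2, mul_comm] at h2
    have h3 : 1 / (p : ℝ) ≤ δ / 2 := by
      have h4 : 2 / δ < p := by
        have : (0 : ℝ) ≤ (d : ℝ) / (δ / 2) ^ 4 := by positivity
        linarith
      rw [div_lt_iff₀ hδ] at h4
      rw [div_le_div_iff₀ hpp (by norm_num)]
      linarith
    have hG : N829.QD.GdN (p := p) (Bad ex {11} (range 14)) (δ / 2) 4 0
        (N829.QD.dat χ (Fin.elim0 : Fin 0 → ℕ)) := by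
      refine N829.QD.gd_init ?_ _
      have h5 : ((((Z p 4).filter fun D => Bad ex {11} (range 14) 4 D).card : ℕ) : ℝ) * p ≤
          d * (p : ℝ) ^ (4 ^ 2 + 4) := by
        exact_mod_cast hcard
      have h6 : (d : ℝ) * (p : ℝ) ^ (4 ^ 2 + 4) < ((δ / 2) ^ 4 * (p : ℝ) ^ (4 ^ 2 + 4)) * p := by
        calc (d : ℝ) * (p : ℝ) ^ (4 ^ 2 + 4) < ((δ / 2) ^ 4 * p) * (p : ℝ) ^ (4 ^ 2 + 4) :=
              mul_lt_mul_of_pos_right h1 (by positivity)
          _ = ((δ / 2) ^ 4 * (p : ℝ) ^ (4 ^ 2 + 4)) * p := by ring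
      exact lt_of_mul_lt_mul_right (lt_of_le_of_lt h5 h6) hpp.le
    have := most_of (p := p) (by omega) χ hχ (η := δ / 2) (δ := δ) (by positivity)
      (by linarith) 4 0 (Fin.elim0 : Fin 0 → ℕ) rfl (fun i => i.elim0) (fun i => i.elim0)
      (fun i => i.elim0) hG
    rwa [Set.range_eq_empty] at this

end Pool.Agent.Results.MP_924d78_nt.MixedInertia
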