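import Pool.Agent.Run7.h753.TM.Two
import Pool.Agent.Run7.h753.TM.Count
import Pool.Agent.Run7.h753.TM.Off
import Pool.Agent.Run7.h753.QI.Dom2
import Pool.Agent.Run7.h753.QI.Cnt
import Pool.Agent.Run7.h753.QI.D5.Cert

/-!
# Tame representations with quadratic unipotent inertia: rank two or at most five tame primes

Theorem. Let `δ > 0` and `r ≥ 0`. For all primes `p ≥ p₀(r, δ)` the following holds. For all primes
`q₁ ≡ 1 mod p` but a proportion of at most `δ`, for all primes `q₂ ≡ 1 mod p` but a proportion of at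
most `δ`, …, for all primes `q_r ≡ 1 mod p` but a proportion of at most `δ`: let `A` be a Noetherian local
ring of residue characteristic `p` (with its adic topology), let `n = 2`, or let `n` be arbitrary if
`r ≤ 5`, and let `ρ : Gal(ℚbar/ℚ) → GL_n(A)` be a continuous residually unipotent representation, unramified
outside `q₁, …, q_r` and primes `≢ 0, 1 mod p` (so unramified at `p`). Assume for the `τ` in the inertia
groups at the `q i` that all entries of `(ρ τ - 1) ^ 2` are nilpotent; for `n = 2` it suffices that all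
entries of `p (ρ τ - 1) ^ 2` are nilpotent. Then `ρ` has finite image. If `p` is not a zero divisor in `A`,
then `ρ` is trivial.

The condition says that `(ρ τ - 1) ^ 2 = 0` at the points of the spectrum of `A`, for `n = 2` only at those
of characteristic zero: if `n = 2` and `p` is nilpotent in `A`, for example `A = k[[t_1, …, t_d]]`, there is
no condition on inertia. Inertia acts in this way on the Tate modules of semistable abelian varieties. The
bound `p₀(r, δ)` depends neither on `n` nor on `A`: in fact there is a nonzero integral polynomial `P` in the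
linking numbers `λ i j`, `i ≠ j`, and the levels `u i = (q i - 1) / p`, which depends neither on `p` nor on
`n` nor on `A`, such that `P(λ, u) ≠ 0` in `ℤ/p` implies this statement for `q₁, …, q_r`.

Proof for `r ≤ 5`. Let `A` be a domain, let `x i = ρ(τ i) - 1` for generators of the tame inertia, and let
`E` be the `A`-module generated by all `ρ(g) - 1`. By the relations
`y i x i - x i y i = (q i - 1) (x i + x i y i)` for a Frobenius element at `q i` and class field theory for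
`y i` (as in Koch's presentation), the `x i` satisfy `∑ j, λ i j (x j x i - x i x j) = 0` modulo
`E ^ 3 + p E`, and `x i ^ 2 = 0`. If the words of length `N` vanish in the algebra over `ℤ/p` with these
`2 r` quadratic relations, then `E ^ N ⊆ p E ^ (N - 1)`. So `E` is nilpotent and the image is finite if `A` has
characteristic `p`. Otherwise the `x i / p` generate a lattice in which the relations are
`∑ j, λ i j (x j x i - x i x j) = u i x i` modulo `p`, and `E = 0` follows if all words of length `1, …, N₁`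
vanish in the algebra with the latter relations and `x i ^ 2 = 0`. By Nakayama's lemma both conditions are
open over `ℤ`, so that one point over `ℤ/3` gives the polynomial `P`. For `r = 5` there is a point over
`ℤ/3` with `N = 7`, `N₁ = 8`: the dimensions in degrees `0, 1, …` are `1, 5, 15, 35, 65, 85, 25, 0`. The
multiplication table of the 231 basis words was found by a computer and is checked here by the kernel
(`Run7.h753.QI.D5`). (For `r ≥ 6` the algebra is infinite dimensional by the inequality of Golod and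
Shafarevich.) Minimal prime ideals of `A` are put together as in `MP_f68ac8_nt.ManyTransvections`.

Proof for `n = 2`. Modulo a minimal prime ideal inertia acts unipotently: in characteristic `p` this follows
from the tame relation. Class field theory of `ℚ` shows that the determinant is trivial, so an alternating
form is preserved and inertia acts by transvections. The theorem for symplectic representations with
transvections on inertia (`Run7.h753.TM.rep_fin`, see `MP_f68ac8_nt.ManyTransvections`) applies to the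
quotient by the minimal prime ideal.
-/

set_option autoImplicit false

open NumberField IsLocalRing

namespace Pool.Agent.Results.MP_924d78_nt.QuadraticInertia

open Finset Filter
open Pool.Agent.Q202.RT Pool.Agent.Q202.QT
open Pool.Agent.W569.TG (lk)
open Run7.h753.QI (Q)

/-- the absolute Galois group of `ℚ`, with the Krull topology -/
abbrev AbsGal : Type := Gal(AlgebraicClosure ℚ/ℚ)

/-- `τ` lies in the inertia group at the ideal `P` of the ring of all algebraic integers. -/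
def InInertia (P : Ideal (𝓞 (AlgebraicClosure ℚ))) (τ : AbsGal) : Prop :=
  ∀ x : 𝓞 (AlgebraicClosure ℚ), τ • x - x ∈ P

/-- all entries of `M ^ 2` are nilpotent; for `n = 2` only all entries of `p M ^ 2` -/
def Quad {A : Type} [CommRing A] {n : ℕ} (p : ℕ) (M : Matrix (Fin n) (Fin n) A) : Prop :=
  (n = 2 → ∀ i j, IsNilpotent ((p : A) * (M ^ 2) i j)) ∧ (n ≠ 2 → ∀ i j, IsNilpotent ((M ^ 2) i j))

/-- `QuadFinite p S n`: let `A` be a Noetherian local ring with `p` in its maximal ideal and with its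
adic topology and `ρ` a continuous representation of the absolute Galois group of `ℚ` in `GL_n(A)` such
that all `ρ(g) - 1` are nilpotent modulo the maximal ideal. Assume that `ρ` is trivial on the inertia
groups at all maximal ideals which contain no `l ∈ S`, and that `Quad p (ρ τ - 1)` for `τ` in the inertia
groups at the maximal ideals which contain some `l ∈ S` with `p ∣ l - 1`. Then the image of `ρ` is finite,
and there is `M` with `p ^ M (ρ(g) - 1) = 0` for all `g` (so `ρ` is trivial if `p` is not a zero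
divisor). -/
def QuadFinite (p : ℕ) (S : Finset ℕ) (n : ℕ) : Prop :=
  ∀ (A : Type) [CommRing A] [IsLocalRing A] [IsNoetherianRing A] [TopologicalSpace A],
    IsAdic (maximalIdeal A) → (p : A) ∈ maximalIdeal A →
    ∀ ρ : AbsGal →* GL (Fin n) A, Continuous ρ →
      (∀ g, ∃ M : ℕ, ∀ i j, (((ρ g : Matrix (Fin n) (Fin n) A) - 1) ^ M) i j ∈ maximalIdeal A) →
      (∀ P : Ideal (𝓞 (AlgebraicClosure ℚ)), P.IsMaximal →
        (∀ l ∈ S, (l : 𝓞 (AlgebraicClosure ℚ)) ∉ P) → ∀ τ, InInertia P τ → ρ τ = 1) →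
      (∀ P : Ideal (𝓞 (AlgebraicClosure ℚ)), P.IsMaximal →
        (∃ l ∈ S, p ∣ l - 1 ∧ (l : 𝓞 (AlgebraicClosure ℚ)) ∈ P) → ∀ τ, InInertia P τ →
          Quad p ((ρ τ : Matrix (Fin n) (Fin n) A) - 1)) →
      (Set.range ρ).Finite ∧
        ∃ M : ℕ, ∀ g i j, (p : A) ^ M * ((ρ g : Matrix (Fin n) (Fin n) A) - 1) i j = 0

/-- `TameFinite p r T`: `QuadFinite p S n` holds for all finite sets `S` of prime numbers `l ≠ p` whose
members congruent to `1` modulo `p` are in `T`, for `n = 2` and, if `r ≤ 5`, for all `n`. -/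
def TameFinite (p r : ℕ) (T : Set ℕ) : Prop :=
  ∀ S : Finset ℕ, (∀ l ∈ S, l.Prime ∧ l ≠ p) → (∀ l ∈ S, p ∣ l - 1 → l ∈ T) →
    ∀ n : ℕ, r ≤ 5 ∨ n = 2 → QuadFinite p S n

/-- The linking number `λ l j` of the distinct primes `l` and `j`: the value of the homomorphism
`χ j : (ℤ/j)ˣ → ℤ/p` at the class of `l` (and `0` if `j` divides `l`, in particular if `l = j`). -/
noncomputable def linking {p : ℕ} (χ : ∀ j : ℕ, (ZMod j)ˣ →* Multiplicative (ZMod p))
    (l j : ℕ) : ZMod p :=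
  open Classical in if h : Nat.Coprime l j then
    Multiplicative.toAdd (χ j (ZMod.unitOfCoprime l h)) else 0

/-- The linking numbers `λ i j` of the primes `q i` and the classes `u i` of `(q i - 1) / p`
modulo `p`. -/
noncomputable def numbers {p r : ℕ} (χ : ∀ j : ℕ, (ZMod j)ˣ →* Multiplicative (ZMod p))
    (q : Fin r → ℕ) : (Fin r × Fin r) ⊕ Fin r → ZMod p :=
  Sum.elim (fun x => linking χ (q x.1) (q x.2)) fun i => (((q i - 1) / p : ℕ) : ZMod p)

/-- `Criterion r P`: let `p > 2` be a prime, `S` a finite set of prime numbers `l ≠ p`, and let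
`q 0, ..., q (r - 1)` be distinct and such that all `l ∈ S` with `p ∣ l - 1` are among them. If the value
of `P` at the linking numbers and the `(q i - 1) / p` is not zero in `ℤ/p`, for nontrivial homomorphisms
`χ l`, then `QuadFinite p S n` holds for `n = 2` and, if `r ≤ 5`, for all `n`. -/
def Criterion (r : ℕ) (P : MvPolynomial ((Fin r × Fin r) ⊕ Fin r) ℤ) : Prop :=
  ∀ (p : ℕ) [Fact p.Prime], 2 < p → ∀ S : Finset ℕ,
    (∀ l ∈ S, l.Prime ∧ l ≠ p) → ∀ q : Fin r → ℕ, Function.Injective q →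
    (∀ l ∈ S, p ∣ l - 1 → ∃ i, l = q i) →
    ∀ χ : ∀ j : ℕ, (ZMod j)ˣ →* Multiplicative (ZMod p), (∀ l ∈ S, p ∣ l - 1 → ∃ x, χ l x ≠ 1) →
    MvPolynomial.aeval (numbers χ q) P ≠ 0 → ∀ n : ℕ, r ≤ 5 ∨ n = 2 → QuadFinite p S n

open Classical in
/-- The primes `q ≤ x` with `p ∣ q - 1`. -/
noncomputable def Pr (p x : ℕ) : Finset ℕ := (range (x + 1)).filter fun q => q.Prime ∧ p ∣ q - 1

open Classical in
/-- `Most p δ R m T`: for all primes `q₁ ≡ 1 mod p`, `q₁ ∉ T`, but a proportion of at most `δ`, for all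
primes `q₂ ≡ 1 mod p`, `q₂ ∉ T ∪ {q₁}`, but a proportion of at most `δ`, …, for all primes
`q_m ≡ 1 mod p`, `q_m ∉ T ∪ {q₁, …, q_{m-1}}`, but a proportion of at most `δ`, the set
`T ∪ {q₁, …, q_m}` has the property `R`. -/
def Most (p : ℕ) (δ : ℝ) (R : Set ℕ → Prop) : ℕ → Set ℕ → Prop
  | 0, T => R T
  | m + 1, T => ∀ ε : ℝ, 0 < ε → ∀ᶠ x : ℕ in atTop, (1 - δ - ε) * ((Pr p x).card : ℝ) ≤
      (((Pr p x).filter fun q => q ∉ T ∧ Most p δ R m (insert q T)).card : ℝ)

theorem Pr_eq (p x : ℕ) [Fact p.Prime] : Pr p x = P1 p x := by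
  ext l
  rw [mem_P1, Pr, mem_filter, mem_range]
  constructor
  · rintro ⟨h1, h2, h3⟩
    exact ⟨by omega, h2, h3⟩
  · rintro ⟨h1, h2, h3⟩
    exact ⟨by omega, h2, h3⟩

section
variable {p : ℕ} [Fact p.Prime]

theorem quad_of (S : Finset ℕ) (hS : ∀ l ∈ S, l.Prime ∧ l ≠ p)
    (χ : ∀ j : ℕ, (ZMod j)ˣ →* Multiplicative (ZMod p)) (hχ : ∀ l ∈ S, p ∣ l - 1 → ∃ x, χ l x ≠ 1)
    {r : ℕ} (l : Fin r → ℕ) (hli : Function.Injective l)
    (hl : ∀ q ∈ S, p ∣ q - 1 → q ∈ Set.range l)
    (h0 : Q (({7} : Finset ℕ) : Set ℕ) (fun i j => lk χ (l i) (l j)) 0)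
    (h1 : Q ((range 9 : Finset ℕ) : Set ℕ) (fun i j => lk χ (l i) (l j))
      (fun i => (((l i - 1) / p : ℕ) : ZMod p))) {n : ℕ} (hn : n ≠ 2) :
    QuadFinite p S n := by
  intro A _ _ _ _ hA hpA ρ hρ hres hur hI
  obtain ⟨d⟩ := Pool.Agent.TH831.NA.exists_dt S hS χ hχ
  have hT : ∀ q ∈ S.filter (fun l => p ∣ l - 1), q ∈ Set.range l := fun q hq =>
    hl q (mem_filter.1 hq).1 (mem_filter.1 hq).2
  rw [coe_singleton] at h0
  have e1 : ((range 9 : Finset ℕ) : Set ℕ) = {m : ℕ | m ≤ 8} := by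
    ext m
    rw [coe_range, Set.mem_Iio]
    show m < 9 ↔ m ≤ 8
    omega
  rw [e1] at h1
  refine Run7.h753.QI.noeth_fin hpA hS d l hli hT (by norm_num) (by norm_num) h0 h1
    (Pool.Agent.TH831.NA.cts_memN hA hρ) (fun g => hres g)
    (fun g ⟨P, hP, h2, h3⟩ => hur P hP h2 g h3) fun q hq => ?_
  obtain ⟨hqS, hpq⟩ := mem_filter.1 hq
  exact (hI (d.P q) (d.hP q (hS q hqS).1).1 ⟨q, hqS, hpq, (d.hP q (hS q hqS).1).2⟩ (d.τ q)
    (d.hτ q hqS hpq)).2 hn

theorem two_of (hp2 : 2 < p) (S : Finset ℕ)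
    (hS : ∀ l ∈ S, l.Prime ∧ l ≠ p ∧ ¬ p ^ 2 ∣ l - 1)
    (χ : ∀ j : ℕ, (ZMod j)ˣ →* Multiplicative (ZMod p)) (hχ : ∀ l ∈ S, p ∣ l - 1 → ∃ x, χ l x ≠ 1)
    {r : ℕ} (l : Fin r → ℕ) (hli : Function.Injective l)
    (hl : ∀ q ∈ S, p ∣ q - 1 → q ∈ Set.range l)
    (h0 : Run7.h753.TM.NoS 0 (fun i j => lk χ (l i) (l j)) (fun i => (((l i - 1) / p : ℕ) : ZMod p)))
    (h1 : Run7.h753.TM.NoS 1 (fun i j => lk χ (l i) (l j))
      (fun i => (((l i - 1) / p : ℕ) : ZMod p))) :
    QuadFinite p S 2 := by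
  intro A _ _ _ _ hA hpA ρ hρ hres hur hI
  obtain ⟨d⟩ := Pool.Agent.TH831.NA.exists_dt S (fun l hl => ⟨(hS l hl).1, (hS l hl).2.1⟩) χ hχ
  have hT : ∀ q ∈ S.filter (fun l => p ∣ l - 1), q ∈ Set.range l := fun q hq =>
    hl q (mem_filter.1 hq).1 (mem_filter.1 hq).2
  refine Run7.h753.TM.two_noeth (by omega) hpA hS d
    (Run7.h753.TM.noOm_of 0 (lk χ) (fun l => (((l - 1) / p : ℕ) : ZMod p)) l hli _ hT h0)
    (Run7.h753.TM.noOm_of 1 (lk χ) (fun l => (((l - 1) / p : ℕ) : ZMod p)) l hli _ hT h1)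
    (Pool.Agent.TH831.NA.cts_memN hA hρ) (fun g => hres g)
    (fun g ⟨P, hP, h2, h3⟩ => hur P hP h2 g h3) fun q hq => ?_
  obtain ⟨hqS, hpq⟩ := mem_filter.1 hq
  exact (hI (d.P q) (d.hP q (hS q hqS).1).1 ⟨q, hqS, hpq, (d.hP q (hS q hqS).1).2⟩ (d.τ q)
    (d.hτ q hqS hpq)).1 rfl

/-- both cases -/
theorem both_of (hp2 : 2 < p) {r : ℕ} (S : Finset ℕ) (hS : ∀ l ∈ S, l.Prime ∧ l ≠ p)
    (χ : ∀ j : ℕ, (ZMod j)ˣ →* Multiplicative (ZMod p)) (hχ : ∀ l ∈ S, p ∣ l - 1 → ∃ x, χ l x ≠ 1)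
    {k : ℕ} (l : Fin k → ℕ) (hli : Function.Injective l)
    (hl : ∀ q ∈ S, p ∣ q - 1 → q ∈ Set.range l)
    (hU : ∀ i, (((l i - 1) / p : ℕ) : ZMod p) ≠ 0)
    (h0 : Run7.h753.TM.NoS 0 (fun i j => lk χ (l i) (l j)) (fun i => (((l i - 1) / p : ℕ) : ZMod p)))
    (h1 : Run7.h753.TM.NoS 1 (fun i j => lk χ (l i) (l j)) (fun i => (((l i - 1) / p : ℕ) : ZMod p)))
    (h2 : r ≤ 5 → Q (({7} : Finset ℕ) : Set ℕ) (fun i j => lk χ (l i) (l j)) 0 ∧
      Q ((range 9 : Finset ℕ) : Set ℕ) (fun i j => lk χ (l i) (l j))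
        (fun i => (((l i - 1) / p : ℕ) : ZMod p))) (n : ℕ) (hn : r ≤ 5 ∨ n = 2) :
    QuadFinite p S n := by
  have hp : p.Prime := Fact.out
  by_cases hn2 : n = 2
  · subst hn2
    refine two_of hp2 S (fun q hq => ⟨(hS q hq).1, (hS q hq).2, fun h => ?_⟩) χ hχ l hli hl h0 h1
    obtain ⟨i, rfl⟩ := hl q hq ((dvd_pow_self p two_ne_zero).trans h)
    apply hU i
    rw [ZMod.natCast_eq_zero_iff]
    obtain ⟨m, hm⟩ := h
    refine ⟨m, ?_⟩
    rw [hm, pow_two, mul_assoc, Nat.mul_div_cancel_left _ hp.pos]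
  · have hr := hn.resolve_right hn2
    exact quad_of S hS χ hχ l hli hl (h2 hr).1 (h2 hr).2 hn2

/-- bad data -/
def Bad (r k : ℕ) (D : Dat p k) : Prop :=
  Run7.h753.TM.Bad k D ∨ (r ≤ 5 ∧ Run7.h753.QI.Bad {7} (range 9) k D)

theorem bad_scInv (r : ℕ) : N829.QD.ScInv (p := p) (Bad r) := fun k c hc D =>
  or_congr (Run7.h753.TM.bad_scInv k c hc D)
    (and_congr_right fun _ => Run7.h753.QI.bad_scInv {7} (range 9) k c hc D)

theorem good_of (hp2 : 2 < p) (χ : ∀ j : ℕ, (ZMod j)ˣ →* Multiplicative (ZMod p))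
    (hχ : Kr χ) {r k : ℕ} (l : Fin k → ℕ) (hli : Function.Injective l)
    (hG : ¬ Bad r k (N829.QD.dat χ l)) : TameFinite p r (Set.range l) := by
  unfold Bad at hG
  push Not at hG
  obtain ⟨hG1, hG2⟩ := hG
  unfold Run7.h753.TM.Bad at hG1
  push Not at hG1
  obtain ⟨g1, g2, g3⟩ := hG1
  intro S hS hT n hn
  refine both_of hp2 (r := r) S hS χ (fun q hq hpq => (hχ q (hS q hq).1 hpq).1) l hli
    (fun q hq h => hT q hq h) g1 g2 g3 (fun hr => ?_) n hn
  have h3 := hG2 hr
  unfold Run7.h753.QI.Bad at h3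
  push Not at h3
  exact ⟨h3.2.1, h3.2.2⟩

theorem most_of (hp2 : 2 < p) (χ : ∀ j : ℕ, (ZMod j)ˣ →* Multiplicative (ZMod p))
    (hχ : Kr χ) (r : ℕ) {η δ : ℝ} (hη : 0 < η) (hδ : η + 1 / p ≤ δ) (m : ℕ) :
    ∀ (k : ℕ) (l : Fin k → ℕ),
      (∀ i, (l i).Prime) → (∀ i, p ∣ l i - 1) → Function.Injective l →
      N829.QD.GdN (Bad r) η m k (N829.QD.dat χ l) →
      Most p δ (TameFinite p r) m (Set.range l) := by
  classical
  have hp : p.Prime := Fact.out
  have hp0 : (0 : ℝ) < p := by exact_mod_cast hp.pos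
  have hp1 : (1 : ℝ) ≤ p := by exact_mod_cast hp.one_lt.le
  induction m with
  | zero =>
    intro k l hl hpl hli hG
    exact good_of hp2 χ hχ l hli (N829.QD.gd_zero hG)
  | succ m ih =>
    intro k l hl hpl hli hG ε hε
    have hst := N829.QD.gd_step hη hG
    obtain ⟨Good, hGood⟩ : ∃ G : (Fin (k + 1) → ZMod p) → (Fin (k + 1) → ZMod p) → Prop,
        G = fun w s => w ≠ 0 ∧
          N829.QD.GdN (Bad r) η m (k + 1) (ext (N829.QD.dat χ l) w s) := ⟨_, rfl⟩
    have hst' : (1 - η) * ((p : ℝ) ^ (k + 1) * (p : ℝ) ^ (k + 1)) - (p : ℝ) ^ (k + 1) ≤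
        ((∑ w : Fin (k + 1) → ZMod p,
          ((univ : Finset (Fin (k + 1) → ZMod p)).filter fun s => Good w s).card : ℕ) : ℝ) := by
      subst hGood
      convert hst
    have hd := densN (p := p) (by omega) χ hχ l hl hpl hli Good
      (fun w s h => by rw [hGood] at h; exact h.1) (fun w s c hc h => by
        rw [hGood] at h ⊢
        refine ⟨fun h0 => h.1 (by
          funext j
          exact (mul_eq_zero.1 (congrFun h0 j)).resolve_left hc), ?_⟩
        unfold N829.QD.GdN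
        rw [N829.QD.Nb_wsc (bad_scInv r) m k hc]
        exact h.2) (1 - δ) (by
        have : (0 : ℝ) < 1 / p := by positivity
        linarith) (by
        rw [le_div_iff₀ (by
          have : 0 < Fintype.card (Fin (k + 1) → ZMod p) := Fintype.card_pos
          positivity), Fintype.card_fun, ZMod.card, Fintype.card_fin]
        refine le_trans ?_ (hst'.trans (le_of_eq (by congr!)))
        push_cast
        have h1 : (0 : ℝ) < (p : ℝ) ^ (k + 1) := by positivity
        have h2 : (p : ℝ) ^ (k + 1) * 1 ≤ (p : ℝ) ^ (k + 1) * ((1 / p) * (p : ℝ) ^ (k + 1)) := by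
          refine mul_le_mul_of_nonneg_left ?_ h1.le
          rw [pow_succ, one_div, mul_comm ((p : ℝ) ^ k), inv_mul_cancel_left₀ hp0.ne']
          exact one_le_pow₀ hp1
        have h3 : (1 - δ) * ((p : ℝ) ^ (k + 1) * (p : ℝ) ^ (k + 1)) ≤
            (1 - η - 1 / p) * ((p : ℝ) ^ (k + 1) * (p : ℝ) ^ (k + 1)) :=
          mul_le_mul_of_nonneg_right (by linarith) (by positivity)
        linarith) ε hε
    filter_upwards [hd] with x hx
    rw [Pr_eq]
    refine le_trans hx (Nat.cast_le.2 (card_le_card ?_))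
    intro q hq
    obtain ⟨h1, h2, h34⟩ := (@Finset.mem_filter _ _ _ _ _).1 hq
    rw [hGood] at h34
    obtain ⟨h3, h4⟩ := h34
    obtain ⟨-, hqp, hpq⟩ := mem_P1.1 h1
    simp only [Finset.mem_filter]
    refine ⟨h1, fun ⟨i, hi⟩ => h2 i hi.symm, ?_⟩
    rw [← Fin.range_cons]
    refine ih (k + 1) (Fin.cons q l) ?_ ?_ ?_ ?_
    · intro i
      refine Fin.cases ?_ (fun j => ?_) i
      · exact hqp
      · exact hl j
    · intro i
      refine Fin.cases ?_ (fun j => ?_) i
      · exact hpq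
      · exact hpl j
    · rw [Fin.cons_injective_iff]
      exact ⟨fun ⟨i, hi⟩ => h2 i hi.symm, hli⟩
    · rw [N829.QD.dat_cons χ l hqp]
      exact h4

end

/-- the condition for `r ≤ 5` and its count -/
theorem quad_card (r : ℕ) : ∃ (P : MvPolynomial ((Fin r × Fin r) ⊕ Fin r) ℤ) (d c : ℕ), P ≠ 0 ∧
    (∀ (p : ℕ) [Fact p.Prime] (L : Fin r → Fin r → ZMod p) (U : Fin r → ZMod p),
      MvPolynomial.aeval (Run7.h753.TM.pnt L U) P ≠ 0 → r ≤ 5 →
        Q (({7} : Finset ℕ) : Set ℕ) L 0 ∧ Q ((range 9 : Finset ℕ) : Set ℕ) L U) ∧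
    c ≠ 0 ∧ ∀ (p : ℕ) [Fact p.Prime], ¬ p ∣ c → open Classical in
    (((Z p r).filter fun D => r ≤ 5 ∧ Run7.h753.QI.Bad {7} (range 9) r D).card * p ≤
      d * p ^ (r ^ 2 + r)) := by
  classical
  by_cases hr : r ≤ 5
  · obtain ⟨⟨P0, hP00, hP01⟩, P1, hP10, hP11⟩ := Run7.h753.QI.polys hr
    obtain ⟨P, d, c, hP0, hP, hc, hdc⟩ :=
      Run7.h753.QI.bad_card r {7} (range 9) hP00 hP10 hP01 hP11
    refine ⟨P, d, c, hP0, fun p _ L U h _ => hP p L U h, hc, fun p _ hpc => ?_⟩
    refine le_trans (Nat.mul_le_mul_right _ (card_le_card fun D hD => ?_)) (hdc p hpc)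
    simp only [Finset.mem_filter] at hD ⊢
    exact ⟨hD.1, hD.2.2⟩
  · refine ⟨1, 0, 1, one_ne_zero, fun p _ L U _ h => absurd h hr, one_ne_zero, fun p _ _ => ?_⟩
    have h0 : ((Z p r).filter fun D => r ≤ 5 ∧ Run7.h753.QI.Bad {7} (range 9) r D) = ∅ :=
      Finset.filter_false_of_mem fun D _ h => hr h.1
    rw [h0, card_empty, zero_mul]
    exact Nat.zero_le _

/-- **Quadratic unipotent inertia.** For every `r` there is a nonzero integral polynomial `P` in the
linking numbers `λ i j` with `i ≠ j` and the levels with `Criterion r P`; and for every `δ > 0` and all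
large `p` the property `TameFinite p r` holds for all `r`-tuples of primes but a proportion of `δ`. -/
theorem result (r : ℕ) :
    (∃ P : MvPolynomial ((Fin r × Fin r) ⊕ Fin r) ℤ, P ≠ 0 ∧ (∀ i, Sum.inl (i, i) ∉ P.vars) ∧
      Criterion r P) ∧
    ∀ δ : ℝ, 0 < δ → ∃ p₀ : ℕ, ∀ (p : ℕ) [Fact p.Prime], p₀ ≤ p →
      Most p δ (TameFinite p r) r ∅ := by
  classical
  obtain ⟨P1, d1, c1, hP10, hP1, hc1, hdc1⟩ := Run7.h753.TM.bad_card r
  obtain ⟨P2, d2, c2, hP20, hP2, hc2, hdc2⟩ := quad_card r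
  refine ⟨?_, ?_⟩
  · have hP0 : P1 * P2 * ∏ l : Fin r, (MvPolynomial.X (Sum.inr l) :
        MvPolynomial ((Fin r × Fin r) ⊕ Fin r) ℤ) ≠ 0 :=
      mul_ne_zero (mul_ne_zero hP10 hP20)
        (Finset.prod_ne_zero_iff.2 fun l _ => MvPolynomial.X_ne_zero _)
    obtain ⟨P', c', hP'0, hP'v, hP'e⟩ := Run7.h753.TM.off_diag hP0
    refine ⟨P', hP'0, hP'v, ?_⟩
    intro p _ hp2 S hS q hq hSq χ hχ hne n hn
    rw [hP'e] at hne
    have e : Run7.h753.TM.dpt c' (numbers χ q) = Run7.h753.TM.pnt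
        (fun i j => if i = j then (c' i : ZMod p) else lk χ (q i) (q j))
        (fun i => (((q i - 1) / p : ℕ) : ZMod p)) := by
      funext i
      rcases i with ⟨i, j⟩ | i <;> rfl
    rw [e, map_mul, map_mul, map_prod] at hne
    have hd : ∀ i j : Fin r, i ≠ j →
        (if i = j then (c' i : ZMod p) else lk χ (q i) (q j)) = lk χ (q i) (q j) :=
      fun i j h => if_neg h
    obtain ⟨h0, h1⟩ := hP1 p _ _ (left_ne_zero_of_mul (left_ne_zero_of_mul hne))
    have h2 := hP2 p _ _ (right_ne_zero_of_mul (left_ne_zero_of_mul hne))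
    have h3 := Finset.prod_ne_zero_iff.1 (right_ne_zero_of_mul hne)
    refine both_of hp2 (r := r) S hS χ hχ q hq (fun l hl h => by
      obtain ⟨i, hi⟩ := hSq l hl h
      exact ⟨i, hi.symm⟩) (fun i => ?_) (Run7.h753.TM.noS_diag (by omega) 0 hd h0)
      (Run7.h753.TM.noS_diag (by omega) 1 hd h1)
      (fun hr => ⟨(h2 hr).1.diag hd, (h2 hr).2.diag hd⟩) n hn
    have h4 := h3 i (Finset.mem_univ _)
    rw [MvPolynomial.aeval_X] at h4
    exact h4
  · intro δ hδ
    obtain ⟨B, hB⟩ := exists_nat_gt (((d1 + d2 : ℕ) : ℝ) / (δ / 2) ^ r + 2 / δ)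
    refine ⟨3 + c1 + c2 + 1 + B, ?_⟩
    intro p _ hp0
    have hp : p.Prime := Fact.out
    have hpp : (0 : ℝ) < p := by exact_mod_cast hp.pos
    have hBp : (B : ℝ) ≤ p := by
      have : B ≤ p := by omega
      exact_mod_cast this
    have hpc1 : ¬ p ∣ c1 := fun h => by
      have := Nat.le_of_dvd (Nat.pos_of_ne_zero hc1) h
      omega
    have hpc2 : ¬ p ∣ c2 := fun h => by
      have := Nat.le_of_dvd (Nat.pos_of_ne_zero hc2) h
      omega
    have hcard : ((Z p r).filter fun D => Bad r r D).card * p ≤ (d1 + d2) * p ^ (r ^ 2 + r) := by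
      rw [add_mul]
      refine le_trans ?_ (add_le_add (hdc1 p (by omega) hpc1) (hdc2 p hpc2))
      rw [← add_mul]
      refine Nat.mul_le_mul_right _ (le_trans (card_le_card fun D hD => ?_) (card_union_le _ _))
      rw [Finset.mem_union]
      simp only [Finset.mem_filter] at hD ⊢
      rcases hD.2 with h | h
      · exact Or.inl ⟨hD.1, h⟩
      · exact Or.inr ⟨hD.1, h⟩
    obtain ⟨χ, hχ, -⟩ := extend (p := p) (fun _ => 1) ∅
      (fun j hj => absurd hj (Set.notMem_empty j))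
    have hd2 : (0 : ℝ) < (δ / 2) ^ r := by positivity
    have h1 : ((d1 + d2 : ℕ) : ℝ) < (δ / 2) ^ r * p := by
      have h2 : ((d1 + d2 : ℕ) : ℝ) / (δ / 2) ^ r < p := by
        have : (0 : ℝ) < 2 / δ := by positivity
        linarith
      rwa [div_lt_iff₀ hd2, mul_comm] at h2
    have h3 : 1 / (p : ℝ) ≤ δ / 2 := by
      have h4 : 2 / δ < p := by
        have : (0 : ℝ) ≤ ((d1 + d2 : ℕ) : ℝ) / (δ / 2) ^ r := by positivity
        linarith
      rw [div_lt_iff₀ hδ] at h4
      rw [div_le_div_iff₀ hpp (by norm_num)]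
      linarith
    have hG : N829.QD.GdN (p := p) (Bad r) (δ / 2) r 0
        (N829.QD.dat χ (Fin.elim0 : Fin 0 → ℕ)) := by
      refine N829.QD.gd_init ?_ _
      have h5 : ((((Z p r).filter fun D => Bad r r D).card : ℕ) : ℝ) * p ≤
          ((d1 + d2 : ℕ) : ℝ) * (p : ℝ) ^ (r ^ 2 + r) := by
        exact_mod_cast hcard
      have h6 : ((d1 + d2 : ℕ) : ℝ) * (p : ℝ) ^ (r ^ 2 + r) <
          ((δ / 2) ^ r * (p : ℝ) ^ (r ^ 2 + r)) * p := by
        calc ((d1 + d2 : ℕ) : ℝ) * (p : ℝ) ^ (r ^ 2 + r) <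
            ((δ / 2) ^ r * p) * (p : ℝ) ^ (r ^ 2 + r) :=
              mul_lt_mul_of_pos_right h1 (by positivity)
          _ = ((δ / 2) ^ r * (p : ℝ) ^ (r ^ 2 + r)) * p := by ring
      exact lt_of_mul_lt_mul_right (lt_of_le_of_lt h5 h6) hpp.le
    have := most_of (p := p) (by omega) χ hχ r (η := δ / 2) (δ := δ) (by positivity)
      (by linarith) r 0 (Fin.elim0 : Fin 0 → ℕ) (fun i => i.elim0) (fun i => i.elim0)
      (fun i => i.elim0) hG
    rwa [Set.range_eq_empty] at this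

end Pool.Agent.Results.MP_924d78_nt.QuadraticInertia
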