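import Pool.Agent.Run7.h707.UH.NF
import Pool.Agent.Run7.h707.UG.Fam
import Pool.Agent.Run7.h707.UG.Den

/-!
# Going up for the tame Fontaine–Mazur conjecture: few characters, short action

Let `p` be an odd prime, `F` a number field, `S` a set of primes of `F`, such that the maximal
`p`-extension of `F` unramified outside `S` is finite, and `K/F` a Galois extension of `p`-power
degree. Suppose that the space of the continuous homomorphisms from the absolute Galois group of `K`
to `ℤ/p` unramified outside `S` has dimension at most `(p - 1) / 2`, or that it is killed by all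
products of `d` differences `σ - 1`, where `2 d - 1 ≤ p - 2`. Then all continuous representations of
the absolute Galois group of `K` into `GL_n(ℤ_p)` (for all `n`) which are unramified outside `S` and
trivial modulo `p` are trivial. The hypothesis on `F` is satisfied for `F = ℚ` and one tame prime.
Cyclic extensions of `ℚ` give examples (with `d = 1`) with infinite `p`-class field tower.
-/

set_option autoImplicit false

open NumberField

namespace Pool.Agent.Results.MP_924d78_nt.TameTrivialAction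

/-- The absolute Galois group of the field `F`. -/
abbrev AbsGal (F : Type) [Field F] : Type := Gal(AlgebraicClosure F/F)

/-- The extensions of the field `F` inside its algebraic closure. -/
abbrev Ext (F : Type) [Field F] : Type := IntermediateField F (AlgebraicClosure F)

/-- `τ` is an element of an inertia group at a prime outside `S`: it acts trivially modulo some
maximal ideal `P` of the ring of all algebraic integers, and the prime of `F` below `P` is not in
`S`. -/
def InertiaOutside {F : Type} [Field F] (S : Set (Ideal (𝓞 F))) (τ : AbsGal F) : Prop :=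
  ∃ P : Ideal (𝓞 (AlgebraicClosure F)), P.IsMaximal ∧
    P.comap (algebraMap (𝓞 F) (𝓞 (AlgebraicClosure F))) ∉ S ∧
    ∀ x : 𝓞 (AlgebraicClosure F), τ • x - x ∈ P

/-- The homomorphism `f` from the subgroup `U` of the absolute Galois group of `F` to a group `E` is
unramified outside `S`, a set of primes of `F`: it is trivial on the inertia groups in `U` at all
primes which do not lie above a prime in `S`. -/
def UnramifiedOutside {F : Type} [Field F] (S : Set (Ideal (𝓞 F))) {U : Subgroup (AbsGal F)}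
    {E : Type} [Group E] (f : U →* E) : Prop :=
  ∀ τ : U, InertiaOutside S (τ : AbsGal F) → f τ = 1

/-- `f` is a continuous homomorphism to `ℤ/p`, unramified outside `S`. -/
def Mem {F : Type} [Field F] (S : Set (Ideal (𝓞 F))) {U : Subgroup (AbsGal F)} {p : ℕ}
    (f : U →* Multiplicative (ZMod p)) : Prop :=
  IsOpen (f.ker : Set U) ∧ UnramifiedOutside S f

/-- `f` is killed by all products of `d` differences `σ - 1`, where `σ` in the absolute Galois group
of `F` acts on functions by `(σ f)(g) = f(σ g σ⁻¹)`. -/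
def KilledBy {F : Type} [Field F] {U : Subgroup (AbsGal F)} {p : ℕ} : ℕ → (U → ZMod p) → Prop
  | 0, f => ∀ g, f g = 0
  | d + 1, f => ∀ (σ : AbsGal F) (f' : U → ZMod p),
      (∀ g g' : U, (g' : AbsGal F) = σ * g * σ⁻¹ → f' g = f g' - f g) → KilledBy d f'

/-- All homomorphisms from the absolute Galois group of `K` to `ℤ/p` which are continuous and
unramified outside `S` are killed by all products of `d` differences `σ - 1`. -/
def ShortAction {F : Type} [Field F] (S : Set (Ideal (𝓞 F))) (K : Ext F) (p d : ℕ) : Prop :=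
  ∀ f : K.fixingSubgroup →* Multiplicative (ZMod p), Mem S f →
    KilledBy d fun g => Multiplicative.toAdd (f g)

/-- The space of the homomorphisms from the absolute Galois group of `K` to `ℤ/p` which are
continuous and unramified outside `S` has at most `p ^ r` elements. -/
def RankLe {F : Type} [Field F] (S : Set (Ideal (𝓞 F))) (K : Ext F) (p r : ℕ) : Prop :=
  Set.encard {f : K.fixingSubgroup →* Multiplicative (ZMod p) | Mem S f} ≤ ((p ^ r : ℕ) : ℕ∞)

/-- Every `ρ g` is unipotent modulo `p`: some power of `ρ g - 1` is divisible by `p`. -/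
def ResiduallyUnipotent {F : Type} [Field F] {U : Subgroup (AbsGal F)} {p : ℕ} [Fact p.Prime]
    {n : ℕ} (ρ : U →* GL (Fin n) ℤ_[p]) : Prop :=
  ∀ g, ∃ M : ℕ, ∀ i j, (p : ℤ_[p]) ∣ (((ρ g : Matrix (Fin n) (Fin n) ℤ_[p]) - 1) ^ M) i j

/-- All products of `e` matrices of the form `ρ g - 1` are divisible by `p`. For `e = 1` this means
that `ρ` is trivial modulo `p`. -/
def Depth {F : Type} [Field F] {U : Subgroup (AbsGal F)} {p : ℕ} [Fact p.Prime] (e : ℕ)
    {n : ℕ} (ρ : U →* GL (Fin n) ℤ_[p]) : Prop :=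
  ∀ l : List U, l.length = e → ∀ i j,
    (p : ℤ_[p]) ∣ (l.map fun g => (ρ g : Matrix (Fin n) (Fin n) ℤ_[p]) - 1).prod i j

/-- For all `n`, every continuous representation of the absolute Galois group of `K` into
`GL_n(ℤ_p)` which is unramified outside `S` and satisfies `Depth e`, or is residually unipotent with
`n ≤ e`, is trivial. -/
def Rigid {F : Type} [Field F] (S : Set (Ideal (𝓞 F))) (K : Ext F) (p e : ℕ) [Fact p.Prime] :
    Prop :=
  ∀ (n : ℕ) (ρ : K.fixingSubgroup →* GL (Fin n) ℤ_[p]), Continuous ρ → UnramifiedOutside S ρ →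
    (Depth e ρ ∨ n ≤ e ∧ ResiduallyUnipotent ρ) → ∀ g, ρ g = 1

/-- The Galois groups of the finite Galois `p`-extensions of `F` unramified outside `S` have bounded
exponent; for example, the maximal `p`-extension of `F` unramified outside `S` is finite. -/
def BoundedTower {F : Type} [Field F] (S : Set (Ideal (𝓞 F))) (p : ℕ) : Prop :=
  ∃ b : ℕ, ∀ N : Subgroup (AbsGal F), N.Normal → IsOpen (N : Set (AbsGal F)) →
    (∀ σ : AbsGal F, ∃ j : ℕ, σ ^ p ^ j ∈ N) → (∀ τ, InertiaOutside S τ → τ ∈ N) →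
      ∀ σ : AbsGal F, σ ^ p ^ b ∈ N

/-- The primes above `q`. -/
def above {F : Type} [Field F] (q : ℕ) : Set (Ideal (𝓞 F)) := {P | (q : 𝓞 F) ∈ P}

/-- The value of `χ_j` at the class of `l` modulo `j` (and `0` if `j` and `l` are not coprime). -/
def value {p : ℕ} (χ : ∀ j : ℕ, (ZMod j)ˣ →* Multiplicative (ZMod p)) (j l : ℕ) : ZMod p :=
  if h : l.Coprime j then Multiplicative.toAdd (χ j (ZMod.unitOfCoprime l h)) else 0

/-- `K` is the extension of `ℚ` cut out by the product of the Dirichlet characters `χ_l`, `l ∈ T`: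
an element `g` of the absolute Galois group of `ℚ`, which acts on the `l`-th roots of unity as the
power `a_l` for all `l ∈ T`, fixes `K` if and only if `∏ χ_l(a_l) = 1`. -/
def CutOut {p : ℕ} (T : Finset ℕ) (χ : ∀ l : ℕ, (ZMod l)ˣ →* Multiplicative (ZMod p))
    (K : Ext ℚ) : Prop :=
  ∀ (g : AbsGal ℚ) (a : ∀ l : ℕ, (ZMod l)ˣ),
    (∀ l ∈ T, ∀ ζ : AlgebraicClosure ℚ, ζ ^ l = 1 → g ζ = ζ ^ ((a l : (ZMod l)ˣ) : ZMod l).val) →
      (g ∈ K.fixingSubgroup ↔ ∏ l ∈ T, χ l (a l) = 1)

/-- The Rédei type condition for the set `T` of the primes ramified in `K` and the tame prime `q`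
(which may or may not be in `T`): if the function `x` on `T ∪ {q}` satisfies
`∑_{j ∈ T ∪ {q}, j ≠ l} χ_j(l) (x_j - δ_j x_l) = 0` for all `l ≠ q` in `T`, where `δ_j = 1` for
`j ∈ T` and `δ_j = 0` otherwise, then `x` is a multiple of `δ`. -/
def FullRank {p : ℕ} (q : ℕ) (T : Finset ℕ) (χ : ∀ l : ℕ, (ZMod l)ˣ →* Multiplicative (ZMod p)) :
    Prop :=
  ∀ x : ℕ → ZMod p, (∀ l ∈ T.erase q,
    ∑ j ∈ (insert q T).erase l, value χ j l * (x j - if j ∈ T then x l else 0) = 0) →
      ∃ c, ∀ l ∈ insert q T, x l = if l ∈ T then c else 0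

/-- `T` has an element different from `q`, and `χ_l` is nontrivial for all `l` in `T ∪ {q}`, a set
of primes `≠ p`. -/
def Admissible {p : ℕ} (q : ℕ) (T : Finset ℕ) (χ : ∀ l : ℕ, (ZMod l)ˣ →* Multiplicative (ZMod p)) :
    Prop :=
  (T.erase q).Nonempty ∧ ∀ l ∈ insert q T, l.Prime ∧ l ≠ p ∧ χ l ≠ 1

/-- `P 0, …, P (r - 1)` are pairwise disjoint sets of primes congruent to `1` modulo `3`, the
members of `P i` are at most `X i`, and `1 ≤ z ≤ X i`. -/
def Boxes {r : ℕ} (P : Fin r → Finset ℕ) (X : Fin r → ℕ) (z : ℕ) : Prop :=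
  1 ≤ z ∧ (∀ i, z ≤ X i) ∧ (∀ i, ∀ q ∈ P i, q.Prime ∧ q % 3 = 1 ∧ q ≤ X i) ∧
    ∀ i l, i ≠ l → Disjoint (P i) (P l)

/-- The number of the tuples `(q_0, …, q_m)`, `q_i ∈ P i`, such that `q_0` and the set of the `q_i`
have the property `good`. -/
noncomputable def count {m : ℕ} (P : Fin (m + 1) → Finset ℕ) (good : ℕ → Finset ℕ → Prop) : ℝ :=
  ({q : Fin (m + 1) → ℕ | (∀ i, q i ∈ P i) ∧ good (q 0) (Finset.univ.image q)}.ncard : ℝ)

/-- The proportion `∏ (1 - 3 ^ (-j))`, `1 ≤ j ≤ m`. -/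
noncomputable def share (m : ℕ) : ℝ := ∏ i ∈ Finset.range m, (1 - (1 / 3 : ℝ) ^ (i + 1))

theorem result (p : ℕ) [Fact p.Prime] (hp2 : p ≠ 2) :
    (∀ (F : Type) [Field F] [NumberField F] (S : Set (Ideal (𝓞 F))),
      (BoundedTower S p → ∀ s : ℕ, s ≤ p - 2 → Rigid S (⊥ : Ext F) p s) ∧
      ∀ (K : Ext F) [FiniteDimensional F K] [IsGalois F K] (a : ℕ), Module.finrank F K = p ^ a →
        (∀ d e : ℕ, 1 ≤ d → (2 * d - 1) * e ≤ p - 2 → ShortAction S K p d →
          Rigid S (⊥ : Ext F) p ((2 * d - 1) * e) → Rigid S K p e) ∧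
        (∀ r : ℕ, RankLe S K p r → ShortAction S K p r) ∧
        (∀ r : ℕ, RankLe S K p r → 2 * r ≤ p - 1 → BoundedTower S p → Rigid S K p 1)) ∧
    (∀ q : ℕ, q.Prime → q ≠ p → BoundedTower (F := ℚ) (above q) p) ∧
    (∀ (q : ℕ) (T : Finset ℕ) (χ : ∀ l : ℕ, (ZMod l)ˣ →* Multiplicative (ZMod p)),
      Admissible q T χ → (∃ K : Ext ℚ, CutOut T χ K) ∧ ∀ K : Ext ℚ, CutOut T χ K →
        IsGalois ℚ K ∧ Module.finrank ℚ K = p ∧
        ((p ^ (T.card - 1) : ℕ) : ℕ∞) ≤
          Set.encard {f : K.fixingSubgroup →* Multiplicative (ZMod p) | Mem ∅ f} ∧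
        (FullRank q T χ → ShortAction (above q) K p 1 ∧ Rigid (above q) K p (p - 2))) ∧
    (∀ t : ℕ, 2 ≤ t → ∀ B : ℕ, ∃ (q : ℕ) (T : Finset ℕ)
      (χ : ∀ l : ℕ, (ZMod l)ˣ →* Multiplicative (ZMod p)),
        q ∈ T ∧ T.card = t ∧ (∀ l ∈ T, B < l) ∧ Admissible q T χ ∧ FullRank q T χ) ∧
    (p = 3 → ∃ C : ℝ, ∀ χ : ∀ l : ℕ, (ZMod l)ˣ →* Multiplicative (ZMod p),
      (∀ l : ℕ, l.Prime → l % 3 = 1 → χ l ≠ 1) →
      ∀ (m : ℕ) (P : Fin (m + 1) → Finset ℕ) (X : Fin (m + 1) → ℕ) (z : ℕ), 1 ≤ m → Boxes P X z →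
        share m * ∏ i, ((P i).card : ℝ) -
            C * 3 ^ ((m + 1) * (m + 1)) * (z : ℝ) ^ (-(1 / 12 : ℝ)) * ∏ i, (X i : ℝ) ≤
          count P fun q T => FullRank q T χ ∧ ∀ K : Ext ℚ, CutOut T χ K → Rigid (above q) K p 1) ∧
    ∀ m : ℕ, 5 / 9 ≤ share m := by
  have hp : p.Prime := Fact.out
  -- the two descriptions of the differences
  have k1 : ∀ {F : Type} [Field F] {U : Subgroup (AbsGal F)} [hN : U.Normal] (d : ℕ)
      (f : U → ZMod p), KilledBy d f → ∀ l : List (AbsGal F), l.length = d → ∀ g,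
        Run7.h707.UH.Dl l f g = 0 := by
    intro F _ U hN d
    induction d with
    | zero =>
      intro f hf l hl g
      have hl0 : l = [] := List.length_eq_zero_iff.1 hl
      rw [hl0]
      exact hf g
    | succ d ih =>
      intro f hf l hl g
      match l, hl with
      | [], hl => simp at hl
      | σ :: l, hl =>
        rw [List.length_cons, Nat.succ_inj] at hl
        rw [Run7.h707.UH.Dl_cons]
        refine ih _ (hf σ _ fun g g' hg => ?_) l hl g
        have h6 : g' = Pool.Agent.N829.TT.al U σ g := by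
          apply Subtype.ext
          rw [hg, Pool.Agent.N829.TT.al_coe]
        rw [h6]
        rfl
  have k2 : ∀ {F : Type} [Field F] {U : Subgroup (AbsGal F)} [hN : U.Normal] (d : ℕ)
      (f : U → ZMod p), (∀ l : List (AbsGal F), l.length = d → ∀ g,
        Run7.h707.UH.Dl l f g = 0) → KilledBy d f := by
    intro F _ U hN d
    induction d with
    | zero =>
      intro f hf g
      exact hf [] rfl g
    | succ d ih =>
      intro f hf σ f' hf'
      have e : f' = Run7.h707.UF.Ss σ f - f := by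
        funext g
        exact hf' g (Pool.Agent.N829.TT.al U σ g) (Pool.Agent.N829.TT.al_coe σ g)
      rw [e]
      exact ih _ fun l hl g => hf (σ :: l) (by rw [List.length_cons, hl]) g
  -- the passage to all of the absolute Galois group
  have toRig : ∀ (F : Type) [Field F] [CharZero F] (S : Set (Ideal (𝓞 F))) (s : ℕ),
      Rigid S (⊥ : Ext F) p s → Run7.h707.UH.Rig (AbsGal F) p (Run7.h707.UG.Wf S) s := by
    intro F _ _ S s h m r hcts hur hD g
    have htop : (⊥ : Ext F).fixingSubgroup = ⊤ := IntermediateField.fixingSubgroup_bot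
    have h1 := h m (r.comp (Subgroup.subtype _)) ((Run7.h707.UG.cont_of_cts r hcts).comp
      continuous_subtype_val) (fun τ hτ => hur _ hτ) (Or.inl fun l hl i j => by
        have h2 := hD (l.map Subtype.val) (by rw [List.length_map, hl]) i j
        rw [List.map_map] at h2
        exact h2)
    exact h1 ⟨g, by rw [htop]; exact Subgroup.mem_top g⟩
  have main : ∀ (F : Type) [Field F] [CharZero F] (K : Ext F) (S : Set (Ideal (𝓞 F)))
      (a d e : ℕ), K.fixingSubgroup.Normal → K.fixingSubgroup.index = p ^ a →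
      IsOpen (K.fixingSubgroup : Set (AbsGal F)) → 1 ≤ d → (2 * d - 1) * e ≤ p - 2 →
      ShortAction S K p d →
        Run7.h707.UH.Rig (AbsGal F) p (Run7.h707.UG.Wf S) ((2 * d - 1) * e) → Rigid S K p e := by
    intro F _ _ K S a d e hN hi ho hd1 hde hsh hR n ρ h1 h2 h3
    exact Run7.h707.UH.up_nf hp2 hd1 hde ho hi
      (fun f hf hfu l hl g => k1 d _ (hsh f ⟨hf, hfu⟩) l hl g) hR h1 h2 h3
  have bnd : ∀ (F : Type) [Field F] [CharZero F] (S : Set (Ideal (𝓞 F))), BoundedTower S p →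
      ∀ s, s ≤ p - 2 → Run7.h707.UH.Rig (AbsGal F) p (Run7.h707.UG.Wf S) s := by
    rintro F _ _ S ⟨b, hb⟩ s hs
    exact Run7.h707.UH.rig_of_bounded hp2 (b := b) (fun N hN ho hpg hW => hb N hN ho hpg
      fun τ hτ => hW τ hτ) hs
  have botR : ∀ (F : Type) [Field F] [CharZero F] (S : Set (Ideal (𝓞 F))) (s : ℕ), s ≤ p - 2 →
      Run7.h707.UH.Rig (AbsGal F) p (Run7.h707.UG.Wf S) s → Rigid S (⊥ : Ext F) p s := by
    intro F _ _ S s hs hR
    have htop : (⊥ : Ext F).fixingSubgroup = ⊤ := IntermediateField.fixingSubgroup_bot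
    refine main F ⊥ S 0 1 s (by rw [htop]; infer_instance) (by rw [htop]; simp) (by
      rw [htop]; exact isOpen_univ) le_rfl (by omega) ?_ (by
      rw [show (2 * 1 - 1) * s = s by omega]; exact hR)
    intro f _ σ f' hf' g
    have hσ : σ ∈ (⊥ : Ext F).fixingSubgroup := by rw [htop]; exact Subgroup.mem_top σ
    have h1 := hf' g (⟨σ, hσ⟩ * g * ⟨σ, hσ⟩⁻¹) rfl
    rw [h1]
    show Multiplicative.toAdd (f (⟨σ, hσ⟩ * g * ⟨σ, hσ⟩⁻¹)) - Multiplicative.toAdd (f g) = 0
    have e : f (⟨σ, hσ⟩ * g * ⟨σ, hσ⟩⁻¹) = f g := by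
      rw [map_mul, map_mul, map_inv, mul_comm (f ⟨σ, hσ⟩), mul_inv_cancel_right]
    rw [e, sub_self]
  -- divisibility
  have hdiv : ∀ (l : ℕ) (χ : (ZMod l)ˣ →* Multiplicative (ZMod p)), l.Prime → χ ≠ 1 →
      p ∣ l - 1 ∧ ∃ x, χ x ≠ 1 := by
    intro l χ hl hχ
    have hx : ∃ x, χ x ≠ 1 := by
      by_contra hcon
      push Not at hcon
      exact hχ (MonoidHom.ext hcon)
    refine ⟨?_, hx⟩
    obtain ⟨x, hx⟩ := hx
    by_contra hnd
    have : Fact l.Prime := ⟨hl⟩
    have h1 : χ x ^ (l - 1) = 1 := by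
      rw [← map_pow, ← ZMod.card_units l, pow_card_eq_one, map_one]
    have h2 : χ x ^ p = 1 := by
      apply Multiplicative.toAdd.injective
      rw [toAdd_pow, toAdd_one, nsmul_eq_mul, CharP.cast_eq_zero, zero_mul]
    apply hx
    have h3 : Nat.Coprime p (l - 1) := (hp.coprime_iff_not_dvd).2 hnd
    have h4 : orderOf (χ x) ∣ Nat.gcd p (l - 1) :=
      Nat.dvd_gcd (orderOf_dvd_of_pow_eq_one h2) (orderOf_dvd_of_pow_eq_one h1)
    rw [h3] at h4
    exact orderOf_eq_one_iff.1 (Nat.dvd_one.1 h4)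
  have hab : ∀ (q : ℕ) (τ : AbsGal ℚ), InertiaOutside (above q) τ ↔ τ ∈ Run7.h707.UG.Wq q := by
    intro q τ
    have h : ∀ P : Ideal (𝓞 (AlgebraicClosure ℚ)),
        P.comap (algebraMap (𝓞 ℚ) (𝓞 (AlgebraicClosure ℚ))) ∈ above (F := ℚ) q ↔
          (q : 𝓞 (AlgebraicClosure ℚ)) ∈ P := by
      intro P
      show (q : 𝓞 ℚ) ∈ P.comap (algebraMap (𝓞 ℚ) (𝓞 (AlgebraicClosure ℚ))) ↔ _
      rw [Ideal.mem_comap, map_natCast]
    constructor
    · rintro ⟨P, hP, hq, hx⟩
      exact ⟨P, hP, fun h' => hq ((h P).2 h'), hx⟩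
    · rintro ⟨P, hP, hq, hx⟩
      exact ⟨P, hP, fun h' => hq ((h P).1 h'), hx⟩
  have hab' : ∀ (q : ℕ) (τ : AbsGal ℚ), InertiaOutside (above q) τ ↔ τ ∈ Run7.h707.UG.Wr {q} := by
    intro q τ
    rw [hab]
    constructor
    · rintro ⟨P, hP, hq, hx⟩
      exact ⟨P, hP, fun q' hq' => by rw [Finset.mem_singleton.1 hq']; exact hq, hx⟩
    · rintro ⟨P, hP, hq, hx⟩
      exact ⟨P, hP, hq q (Finset.mem_singleton_self q), hx⟩
  have bdQ : ∀ q : ℕ, q.Prime → q ≠ p → BoundedTower (F := ℚ) (above q) p := by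
    intro q hq hqp
    exact ⟨q, fun N hN ho hpg hW σ => Run7.h707.UG.bounded_Q hp2 hq hqp N ho hpg
      (fun x hx => hW x ((hab q x).2 hx)) σ⟩
  have hfull : ∀ (q : ℕ) (T : Finset ℕ) (χ : ∀ l : ℕ, (ZMod l)ˣ →* Multiplicative (ZMod p)),
      FullRank q T χ ↔ ∀ x : ℕ → ZMod p, (∀ l ∈ T.erase q, ∑ j ∈ (insert q T).erase l,
        Run7.h707.UF.link χ j l * (x j - if j ∈ T then x l else 0) = 0) →
          ∃ c, ∀ l ∈ insert q T, x l = if l ∈ T then c else 0 := fun q T χ => Iff.rfl
  have two : ∀ (q : ℕ) (T : Finset ℕ) (χ : ∀ l : ℕ, (ZMod l)ˣ →* Multiplicative (ZMod p)),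
      Admissible q T χ → (∃ K : Ext ℚ, CutOut T χ K) ∧ ∀ K : Ext ℚ, CutOut T χ K →
        IsGalois ℚ K ∧ Module.finrank ℚ K = p ∧
        ((p ^ (T.card - 1) : ℕ) : ℕ∞) ≤
          Set.encard {f : K.fixingSubgroup →* Multiplicative (ZMod p) | Mem ∅ f} ∧
        (FullRank q T χ → ShortAction (above q) K p 1 ∧ Rigid (above q) K p (p - 2)) := by
    intro q T χ hA
    have hS : ∀ l ∈ insert q T, l.Prime ∧ l ≠ p := fun l hl => ⟨(hA.2 l hl).1, (hA.2 l hl).2.1⟩
    have hS1 : ∀ l ∈ insert q T, p ∣ l - 1 := fun l hl =>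
      (hdiv l (χ l) (hA.2 l hl).1 (hA.2 l hl).2.2).1
    have hχ : ∀ l ∈ insert q T, p ∣ l - 1 → ∃ x, χ l x ≠ 1 := fun l hl _ =>
      (hdiv l (χ l) (hA.2 l hl).1 (hA.2 l hl).2.2).2
    have hTm : ∀ l ∈ T, l ∈ insert q T := fun l hl => Finset.mem_insert_of_mem hl
    have hTne : T.Nonempty := hA.1.mono (Finset.erase_subset q T)
    refine ⟨Run7.h707.UF.cut_ex hp2 (fun l hl => hS l (hTm l hl)) (fun l hl => hS1 l (hTm l hl))
      (fun l hl => hχ l (hTm l hl)), fun K hK => ?_⟩
    obtain ⟨h1, h2, h3, -⟩ := Run7.h707.UF.cut_main hp2 (fun l hl => hS l (hTm l hl))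
      (fun l hl => hS1 l (hTm l hl)) (fun l hl => hχ l (hTm l hl)) hTne K hK
    have hfr : Module.finrank ℚ K = p := by
      rw [← h2]
      exact IntermediateField.finrank_eq_fixingSubgroup_index _ K
    have hfd : FiniteDimensional ℚ K := Module.finite_of_finrank_pos (by rw [hfr]; exact hp.pos)
    have hG : IsGalois ℚ K := (InfiniteGalois.normal_iff_isGalois K).1 h1
    refine ⟨hG, hfr, ?_, fun hR => ?_⟩
    · refine h3.trans (Set.encard_le_encard ?_)
      rintro f ⟨h5, h6⟩
      refine ⟨h5, ?_⟩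
      rintro τ ⟨P, hP, -, hx⟩
      exact h6 τ ⟨P, hP, hx⟩
    · have htr : ShortAction (above q) K p 1 := by
        intro f hf σ f' hf' g
        have h5 := Run7.h707.UG.cutR hp2 hS hS1 hχ hA.1 K hK ((hfull q T χ).1 hR) f hf.1
          (fun x hx => hf.2 x ((hab' q _).2 hx)) σ g
        have h6 := hf' g (Pool.Agent.N829.TT.al K.fixingSubgroup σ g)
          (Pool.Agent.N829.TT.al_coe σ g)
        rw [h6]
        show Multiplicative.toAdd (f (Pool.Agent.N829.TT.al K.fixingSubgroup σ g)) -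
          Multiplicative.toAdd (f g) = 0
        rw [h5, sub_self]
      have hq := hS q (Finset.mem_insert_self q T)
      exact ⟨htr, main ℚ K (above q) 1 1 (p - 2) h1 (by rw [h2, pow_one])
        (IntermediateField.fixingSubgroup_isOpen K) le_rfl (by omega) htr
        (bnd ℚ _ (bdQ q hq.1 hq.2) _ (by omega))⟩
  refine ⟨?_, bdQ, two, ?_, ?_, Run7.h707.UG.Dn.share_ge⟩
  · intro F _ _ S
    refine ⟨fun h s hs => botR F S s hs (bnd F S h s hs), ?_⟩
    intro K _ _ a ha
    have hN : K.fixingSubgroup.Normal := (InfiniteGalois.normal_iff_isGalois K).2 inferInstance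
    have hi : K.fixingSubgroup.index = p ^ a := by rw [Run7.h707.UF.index_eq, ha]
    have ho := IntermediateField.fixingSubgroup_isOpen K
    have hrk : ∀ r : ℕ, RankLe S K p r → ShortAction S K p r := by
      intro r hr f hf
      refine k2 r _ fun l hl g => ?_
      exact Run7.h707.UH.kill_ch (Run7.h707.UG.Wf_conj S) (a := a)
        (fun σ => hi ▸ K.fixingSubgroup.pow_index_mem σ) hr f hf.1 hf.2 l hl g
    refine ⟨fun d e hd1 hde hsh hR => main F K S a d e hN hi ho hd1 hde hsh (toRig F S _ hR), hrk,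
      ?_⟩
    intro r hr hrp hB
    have h3p : 3 ≤ p := by
      have := hp.two_le
      omega
    have hr' : RankLe S K p (max r 1) := by
      refine le_trans hr ?_
      exact_mod_cast Nat.pow_le_pow_right hp.pos (le_max_left r 1)
    have hb1 : (2 * max r 1 - 1) * 1 ≤ p - 2 := by omega
    exact main F K S a (max r 1) 1 hN hi ho (le_max_right r 1) hb1 (hrk _ hr')
      (bnd F S hB _ hb1)
  · intro t ht B
    choose χ hχ using fun j => Run7.h707.UF.ex_chi p j
    obtain ⟨T, q, hqT, hTc, hTp, hred⟩ := Run7.h707.UG.ex_setsR (χ := χ)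
      (fun j hj hj1 => hχ j hj hj1) B t (by omega)
    have hins : insert q T = T := Finset.insert_eq_self.2 hqT
    have hS : ∀ l ∈ T, l.Prime ∧ l ≠ p := fun l hl => ⟨(hTp l hl).1, by
      rintro rfl
      have h1 := (hTp l hl).1.two_le
      have := Nat.le_of_dvd (by omega) (hTp l hl).2.1
      omega⟩
    refine ⟨q, T, χ, hqT, hTc, fun l hl => (hTp l hl).2.2, ⟨?_, ?_⟩, (hfull q T χ).2 hred⟩
    · rw [← Finset.card_pos, Finset.card_erase_of_mem hqT]
      omega
    · rw [hins]
      intro l hl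
      refine ⟨(hS l hl).1, (hS l hl).2, fun h => ?_⟩
      obtain ⟨x, hx⟩ := hχ l (hS l hl).1 (hTp l hl).2.1
      exact hx (by rw [h]; rfl)
  · intro h3
    subst h3
    obtain ⟨C, hC1, hC⟩ := Run7.h707.UG.Dn.density
    refine ⟨C, fun χ hχ m P X z hm hB => ?_⟩
    have h1 := hC χ (fun l hl hl3 => (hdiv l (χ l) hl (hχ l hl hl3)).2) m P X z
      ⟨hB.1, hB.2.1, hB.2.2.1, hB.2.2.2⟩
      (fun q => (fun q T => FullRank q T χ ∧ ∀ K : Ext ℚ, CutOut T χ K → Rigid (above q) K 3 1)
        (q 0) (Finset.univ.image q)) (fun q hq hred => ?_)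
    · have e1 : ((3 : ℝ) ^ (m + 1) * (3 ^ ((m + 1) * m) *
          (C * (z : ℝ) ^ (-(1 / 12 : ℝ)) * ∏ i, (X i : ℝ)))) =
          C * 3 ^ ((m + 1) * (m + 1)) * (z : ℝ) ^ (-(1 / 12 : ℝ)) * ∏ i, (X i : ℝ) := by
        rw [mul_add (m + 1), mul_one, pow_add]
        ring
      rw [e1] at h1
      refine le_trans h1 (le_of_eq ?_)
      unfold count
      rw [← Set.ncard_coe_finset]
      congr 2
      ext q
      simp
    · have hq' : ∀ i, (q i).Prime ∧ q i % 3 = 1 := fun i =>
        have h5 := hB.2.2.1 i _ (Fintype.mem_piFinset.1 hq i)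
        ⟨h5.1, h5.2.1⟩
      have h0 : q 0 ∈ Finset.univ.image q := Finset.mem_image_of_mem q (Finset.mem_univ 0)
      have hinj : Function.Injective q := by
        intro i l hil
        by_contra hne
        exact Finset.disjoint_left.1 (hB.2.2.2 i l hne) (Fintype.mem_piFinset.1 hq i)
          (hil ▸ Fintype.mem_piFinset.1 hq l)
      have hA : Admissible (p := 3) (q 0) (Finset.univ.image q) χ := by
        refine ⟨⟨q (Fin.last m), Finset.mem_erase.2 ⟨fun h => ?_,
          Finset.mem_image_of_mem q (Finset.mem_univ _)⟩⟩, ?_⟩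
        · have h5 := hinj h
          have h6 := congrArg Fin.val h5
          simp at h6
          omega
        · rw [Finset.insert_eq_self.2 h0]
          intro l hl
          obtain ⟨i, -, rfl⟩ := Finset.mem_image.1 hl
          exact ⟨(hq' i).1, fun h => by have := (hq' i).2; omega, hχ _ (hq' i).1 (hq' i).2⟩
      have hF : FullRank (q 0) (Finset.univ.image q) χ := hred
      exact ⟨hF, fun K hK => (((two _ _ χ hA).2 K hK).2.2.2 hF).2⟩

end Pool.Agent.Results.MP_924d78_nt.TameTrivialAction
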